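import Mathlib
import Pool.Agent.H262.FP7

set_option autoImplicit false

/-!
Quotient costs, cutoffs at variable scale, and a uniform detection lemma.
-/

namespace Pool.Agent.Y838.SP

open Finset Pool.Agent.H262.FP

noncomputable section

open scoped Classical

variable {M : Type*} [MetricSpace M] {p : ℝ}

/-- uniform detection with prescribed constants -/
def DetU {W : Type*} [AddCommGroup W] [Module ℝ W] (N : W → ℝ) (p : ℝ) (x : ℕ → W) (C c : ℝ) :
    Prop :=
  ∃ (ν : ℕ → ℕ) (Q : ℕ → W → ℝ), StrictMono ν ∧ (∀ k, IsPF p (Q k)) ∧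
    (∀ v (F : Finset ℕ), ∑ k ∈ F, Q k v ≤ C * N v) ∧ ∀ k, c ≤ Q k (x (ν k))

/-- distance to a finite set -/
def dE (E : Finset M) (s : M) : ℝ := Metric.infDist s (E : Set M)

theorem dE_nonneg (E : Finset M) (s : M) : 0 ≤ dE E s := Metric.infDist_nonneg

theorem dE_le {E : Finset M} (s : M) {t : M} (ht : t ∈ E) : dE E s ≤ dist s t :=
  Metric.infDist_le_dist_of_mem (Finset.mem_coe.mpr ht)

theorem dE_self {E : Finset M} {t : M} (ht : t ∈ E) : dE E t = 0 := by
  have := dE_le t ht
  rw [dist_self] at this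
  exact le_antisymm this (dE_nonneg E t)

theorem dE_tri (E : Finset M) (s t : M) : dE E s ≤ dE E t + dist s t :=
  Metric.infDist_le_infDist_add_dist

theorem dE_attained {E : Finset M} {o : M} (ho : o ∈ E) (s : M) : ∃ t ∈ E, dist s t = dE E s := by
  obtain ⟨t, ht, h⟩ := E.finite_toSet.isCompact.exists_infDist_eq_dist ⟨o, Finset.mem_coe.mpr ho⟩ s
  exact ⟨t, Finset.mem_coe.mp ht, h.symm⟩

/-- the cost of the quotient by the finite set `E` -/
def ωq (p : ℝ) (E : Finset M) (e : M × M) : ℝ := (min (dist e.1 e.2) (dE E e.1 + dE E e.2)) ^ p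

theorem min_nonneg' (E : Finset M) (e : M × M) : 0 ≤ min (dist e.1 e.2) (dE E e.1 + dE E e.2) :=
  le_min dist_nonneg (add_nonneg (dE_nonneg _ _) (dE_nonneg _ _))

theorem ωq_nonneg (p : ℝ) (E : Finset M) (e : M × M) : 0 ≤ ωq p E e :=
  Real.rpow_nonneg (min_nonneg' E e) _

theorem isPF_q (hp : 0 < p) (hp1 : p ≤ 1) (E : Finset M) (o : M) : IsPF p (nn p (ωq p E) o) :=
  isPF_nn hp hp1 (ωq_nonneg p E) o

theorem nnq_dl_le (hp : 0 < p) (hp1 : p ≤ 1) {E : Finset M} {o : M} (ho : o ∈ E) (t : M) :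
    nn p (ωq p E) o (dl t) ≤ dE E t ^ p := by
  have h : dl t = ed (t, o) + (1:ℝ) • dl o := by rw [ed, one_smul]; abel
  rw [h]
  refine ((isPF_q hp hp1 E o).add_le _ _).trans ?_
  rw [nn_smul_base hp hp1 (ωq_nonneg p E), add_zero]
  refine (nn_ed_le hp (ωq_nonneg p E) o _).trans ?_
  refine Real.rpow_le_rpow (min_nonneg' E _) ?_ hp.le
  refine (min_le_right _ _).trans ?_
  simp only
  rw [dE_self ho, add_zero]

theorem nnq_le (hp : 0 < p) (hp1 : p ≤ 1) {E : Finset M} {o : M} (ho : o ∈ E) (w : M →₀ ℝ) :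
    nn p (ωq p E) o w ≤ ∑ s ∈ w.support, |w s| ^ p * dE E s ^ p := by
  have h1 : w = ∑ u ∈ w.support, w u • dl u := by
    conv_lhs => rw [← Finsupp.sum_single w, Finsupp.sum]
    exact Finset.sum_congr rfl (fun u _ => by rw [Finsupp.smul_single, smul_eq_mul, mul_one])
  conv_lhs => rw [h1]
  refine ((isPF_q hp hp1 E o).sum_le hp _ _).trans ?_
  refine Finset.sum_le_sum (fun u _ => ?_)
  rw [(isPF_q hp hp1 E o).smul]
  exact mul_le_mul_of_nonneg_left (nnq_dl_le hp hp1 ho u) (abs_rpow_nonneg _)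

/-- the quotient norm controls the distance to the span of `E` -/
theorem near_of_nnq (hp : 0 < p) (hp1 : p ≤ 1) {E : Finset M} {o : M} (ho : o ∈ E) {v : M →₀ ℝ}
    {c : ℝ} (hc : nn p (ωq p E) o v < c) :
    ∃ w : M →₀ ℝ, w.support ⊆ E ∧ nn p (ωf p) o (v - w) ≤ 2 * c := by
  obtain ⟨f, t, h1, h2⟩ := exists_near hc
  choose π hπE hπd using fun s : M => dE_attained ho s
  set W : M × M → (M →₀ ℝ) := fun e =>
    if dist e.1 e.2 ≤ dE E e.1 + dE E e.2 then 0 else ed (π e.1, π e.2) with hW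
  have hWs : ∀ e, (W e).support ⊆ E := by
    intro e
    simp only [hW]
    split_ifs
    · simp
    · rw [ed]
      refine Finsupp.support_sub.trans ?_
      refine Finset.union_subset ?_ ?_
      · refine Finsupp.support_single_subset.trans ?_
        exact Finset.singleton_subset_iff.mpr (hπE _)
      · refine Finsupp.support_single_subset.trans ?_
        exact Finset.singleton_subset_iff.mpr (hπE _)
  have hWd : ∀ e, nn p (ωf p) o (ed e - W e) ≤ 2 * ωq p E e := by
    intro e
    have h0 := ωq_nonneg p E e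
    simp only [hW]
    split_ifs with hd
    · rw [sub_zero]
      refine (nn_ed_le hp (ωf_nonneg p) o e).trans ?_
      have : ωf p e = ωq p E e := by rw [ωf, ωq, min_eq_left hd]
      linarith
    · rw [not_le] at hd
      have h3 : ed e - ed (π e.1, π e.2) = ed (e.1, π e.1) - ed (e.2, π e.2) := by
        simp only [ed]; abel
      rw [h3]
      refine ((isPF_f hp hp1 o).sub_le _ _).trans ?_
      have h4 := nn_ed_le hp (ωf_nonneg p) o (e.1, π e.1)
      have h5 := nn_ed_le hp (ωf_nonneg p) o (e.2, π e.2)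
      have h6 : ωf p (e.1, π e.1) ≤ ωq p E e := by
        rw [ωf, ωq, min_eq_right hd.le]
        simp only
        rw [hπd]
        refine Real.rpow_le_rpow (dE_nonneg _ _) ?_ hp.le
        linarith [dE_nonneg E e.2]
      have h7 : ωf p (e.2, π e.2) ≤ ωq p E e := by
        rw [ωf, ωq, min_eq_right hd.le]
        simp only
        rw [hπd]
        refine Real.rpow_le_rpow (dE_nonneg _ _) ?_ hp.le
        linarith [dE_nonneg E e.1]
      linarith
  refine ⟨∑ e ∈ f.support, f e • W e + t • dl o, ?_, ?_⟩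
  · refine Finsupp.support_add.trans (Finset.union_subset ?_ ?_)
    · refine Finsupp.support_finsetSum.trans ?_
      intro s hs
      rw [Finset.mem_biUnion] at hs
      obtain ⟨e, _, hs⟩ := hs
      exact hWs e (Finsupp.support_smul hs)
    · refine Finsupp.support_smul.trans (Finsupp.support_single_subset.trans ?_)
      exact Finset.singleton_subset_iff.mpr ho
  · have h3 : v - (∑ e ∈ f.support, f e • W e + t • dl o) = ∑ e ∈ f.support, f e • (ed e - W e) := by
      rw [h1, bd_apply]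
      simp only [smul_sub, Finset.sum_sub_distrib]
      abel
    rw [h3]
    refine ((isPF_f hp hp1 o).sum_le hp _ _).trans ?_
    have h4 : ∑ e ∈ f.support, nn p (ωf p) o (f e • (ed e - W e)) ≤ 2 * cost p (ωq p E) f := by
      rw [cost, Finset.mul_sum]
      refine Finset.sum_le_sum (fun e _ => ?_)
      rw [(isPF_f hp hp1 o).smul]
      have := mul_le_mul_of_nonneg_left (hWd e) (abs_rpow_nonneg (p := p) (f e))
      linarith
    linarith

/-- multiplication by a cutoff at variable scale, in the quotient norm -/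
theorem mulq_aux (hp : 0 < p) (hp1 : p ≤ 1) {E : Finset M} {o : M} (ho : o ∈ E) (ψ : M → ℝ)
    (hψ : ∀ s, |ψ s| ≤ 1) {L : ℝ} (hL : 0 ≤ L) (s t : M)
    (hLip : |ψ s - ψ t| * dE E t ≤ L * dist s t) :
    nn p (ωq p E) o (mulop ψ (ed (s, t))) ≤ (1 + L ^ p) * dist s t ^ p := by
  have h1 : mulop ψ (ed (s, t)) = ψ s • ed (s, t) + (ψ s - ψ t) • dl t := by
    rw [ed, map_sub, mulop_dl, mulop_dl, smul_sub, sub_smul]; abel
  rw [h1]
  refine ((isPF_q hp hp1 E o).add_le _ _).trans ?_
  rw [(isPF_q hp hp1 E o).smul, (isPF_q hp hp1 E o).smul, add_mul, one_mul]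
  refine add_le_add ?_ ?_
  · have h2 : |ψ s| ^ p ≤ 1 := Real.rpow_le_one (abs_nonneg _) (hψ s) hp.le
    have h3 : nn p (ωq p E) o (ed (s, t)) ≤ dist s t ^ p := by
      refine (nn_ed_le hp (ωq_nonneg p E) o _).trans ?_
      exact Real.rpow_le_rpow (min_nonneg' E _) (min_le_left _ _) hp.le
    have h4 := (isPF_q hp hp1 E o).nonneg (ed (s, t))
    have h5 := abs_rpow_nonneg (p := p) (ψ s)
    nlinarith
  · calc |ψ s - ψ t| ^ p * nn p (ωq p E) o (dl t) ≤ |ψ s - ψ t| ^ p * dE E t ^ p :=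
          mul_le_mul_of_nonneg_left (nnq_dl_le hp hp1 ho t) (abs_rpow_nonneg _)
      _ = (|ψ s - ψ t| * dE E t) ^ p := (Real.mul_rpow (abs_nonneg _) (dE_nonneg _ _)).symm
      _ ≤ (L * dist s t) ^ p :=
          Real.rpow_le_rpow (mul_nonneg (abs_nonneg _) (dE_nonneg _ _)) hLip hp.le
      _ = L ^ p * dist s t ^ p := Real.mul_rpow hL dist_nonneg

theorem mulq (hp : 0 < p) (hp1 : p ≤ 1) {E : Finset M} {o : M} (ho : o ∈ E) (ψ : M → ℝ)
    (hψ : ∀ s, |ψ s| ≤ 1) {L : ℝ} (hL : 0 ≤ L)
    (hLip : ∀ s t, |ψ s - ψ t| * min (dE E s) (dE E t) ≤ L * dist s t) (e : M × M) :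
    nn p (ωq p E) o (mulop ψ (ed e)) ≤ (1 + L ^ p) * ωf p e := by
  obtain ⟨s, t⟩ := e
  have h := hLip s t
  rcases le_total (dE E s) (dE E t) with h1 | h1
  · rw [min_eq_left h1] at h
    have h2 : ed (s, t) = -ed (t, s) := by simp only [ed]; abel
    rw [h2, map_neg, (isPF_q hp hp1 E o).neg]
    have h3 := mulq_aux hp hp1 ho ψ hψ hL t s (by rw [abs_sub_comm, dist_comm t s]; exact h)
    rw [ωf]; simp only
    rw [dist_comm s t]; exact h3
  · rw [min_eq_right h1] at h
    exact mulq_aux hp hp1 ho ψ hψ hL s t h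

theorem mulq_family (hp : 0 < p) (hp1 : p ≤ 1) (o : M) (E : ℕ → Finset M) (ho : ∀ k, o ∈ E k)
    (ψ : ℕ → M → ℝ)
    (hψ : ∀ k s, |ψ k s| ≤ 1) {L : ℝ} (hL : 0 ≤ L)
    (hLip : ∀ k s t, |ψ k s - ψ k t| * min (dE (E k) s) (dE (E k) t) ≤ L * dist s t)
    (hdisj : ∀ s k l, ψ k s ≠ 0 → ψ l s ≠ 0 → k = l) (v : M →₀ ℝ) (F : Finset ℕ) :
    ∑ k ∈ F, nn p (ωq p (E k)) o (mulop (ψ k) v) ≤ (2 * (1 + L ^ p)) * nn p (ωf p) o v := by
  have hPF : IsPF p (fun v => ∑ k ∈ F, nn p (ωq p (E k)) o (mulop (ψ k) v)) :=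
    IsPF.finset_sum F (fun k v => nn p (ωq p (E k)) o (mulop (ψ k) v))
      (fun k _ => (isPF_q hp hp1 (E k) o).comp (mulop (ψ k)))
  have hLp : 0 ≤ L ^ p := Real.rpow_nonneg hL _
  refine le_nn hp (ωf_nonneg p) hPF ?_ (by positivity) ?_ v
  · apply Finset.sum_eq_zero
    intro k _
    rw [mulop_dl, nn_smul_base hp hp1 (ωq_nonneg p (E k))]
  · intro e
    set D := (1 + L ^ p) * ωf p e with hD
    have hD0 : 0 ≤ D := mul_nonneg (by positivity) (ωf_nonneg p e)
    have h1 : ∀ k ∈ F, nn p (ωq p (E k)) o (mulop (ψ k) (ed e)) ≤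
        (if ψ k e.1 ≠ 0 then D else 0) + (if ψ k e.2 ≠ 0 then D else 0) := by
      intro k _
      by_cases h2 : ψ k e.1 ≠ 0
      · rw [if_pos h2]
        have := mulq hp hp1 (ho k) (ψ k) (hψ k) hL (hLip k) e
        split_ifs <;> linarith
      · by_cases h3 : ψ k e.2 ≠ 0
        · rw [if_pos h3]
          have := mulq hp hp1 (ho k) (ψ k) (hψ k) hL (hLip k) e
          split_ifs <;> linarith
        · rw [not_not] at h2 h3
          rw [if_neg (not_not.mpr h2), if_neg (not_not.mpr h3), ed, map_sub, mulop_dl, mulop_dl, h2,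
            h3, zero_smul, zero_smul, sub_zero, (isPF_q hp hp1 (E k) o).zero hp, add_zero]
    have h2 : ∀ s, ∑ k ∈ F, (if ψ k s ≠ 0 then D else 0) ≤ D := by
      intro s
      rw [← Finset.sum_filter, Finset.sum_const, nsmul_eq_mul]
      have h3 : (F.filter (fun k => ψ k s ≠ 0)).card ≤ 1 := by
        rw [Finset.card_le_one]
        intro a ha b hb
        rw [Finset.mem_filter] at ha hb
        exact hdisj s a b ha.2 hb.2
      have h4 : ((F.filter (fun k => ψ k s ≠ 0)).card : ℝ) ≤ 1 := by exact_mod_cast h3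
      nlinarith
    refine (Finset.sum_le_sum h1).trans ?_
    rw [Finset.sum_add_distrib]
    have h3 := h2 e.1
    have h4 := h2 e.2
    have h5 : 2 * (1 + L ^ p) * ωf p e = D + D := by rw [hD]; ring
    linarith

/-- a cutoff equal to `1` on the finite set `S`, at scale `D / 6` -/
theorem exists_cutoff (E S : Finset M) (hpos : ∀ s ∈ S, 0 < dE E s) :
    ∃ ψ : M → ℝ, (∀ s, 0 ≤ ψ s ∧ ψ s ≤ 1) ∧ (∀ s ∈ S, ψ s = 1) ∧
      (∀ s, ψ s ≠ 0 → ∃ s' ∈ S, dist s s' < dE E s' / 6) ∧
      (∀ s t, |ψ s - ψ t| * min (dE E s) (dE E t) ≤ 7 * dist s t) := by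
  set χ : M → M → ℝ := fun s' s => max 0 (1 - 6 * dist s s' / dE E s') with hχ
  have hχ0 : ∀ s' s, 0 ≤ χ s' s := fun s' s => le_max_left _ _
  have hχ1 : ∀ s' ∈ S, ∀ s, χ s' s ≤ 1 := by
    intro s' hs' s
    have := hpos s' hs'
    refine max_le zero_le_one ?_
    have : 0 ≤ 6 * dist s s' / dE E s' := by positivity
    linarith
  have hχne : ∀ s' ∈ S, ∀ s, χ s' s ≠ 0 → dist s s' < dE E s' / 6 := by
    intro s' hs' s hne
    by_contra hcon
    rw [not_lt] at hcon
    apply hne
    simp only [hχ]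
    apply max_eq_left
    have h1 := hpos s' hs'
    have : 1 ≤ 6 * dist s s' / dE E s' := by
      rw [le_div_iff₀ h1]; linarith
    linarith
  have hkey : ∀ s' ∈ S, ∀ s t, χ s' s * min (dE E s) (dE E t) ≤
      χ s' t * min (dE E s) (dE E t) + 7 * dist s t := by
    intro s' hs' s t
    have h1 := hpos s' hs'
    have hm0 : 0 ≤ min (dE E s) (dE E t) := le_min (dE_nonneg _ _) (dE_nonneg _ _)
    by_cases h0 : χ s' s = 0
    · rw [h0, zero_mul]
      have := mul_nonneg (hχ0 s' t) hm0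
      have := @dist_nonneg _ _ s t
      linarith
    · have h2 := hχne s' hs' s h0
      have h3 := dE_tri E s s'
      have h4 : min (dE E s) (dE E t) ≤ 7 / 6 * dE E s' := (min_le_left _ _).trans (by linarith)
      have h5 : χ s' s - χ s' t ≤ 6 / dE E s' * dist s t := by
        have h6 : χ s' s - χ s' t ≤ |(1 - 6 * dist s s' / dE E s') - (1 - 6 * dist t s' / dE E s')| := by
          refine (le_abs_self _).trans ?_
          simp only [hχ]
          refine (abs_max_sub_max_le_max _ _ _ _).trans ?_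
          rw [sub_self, abs_zero]
          exact max_le (abs_nonneg _) le_rfl
        refine h6.trans ?_
        have h7 : (1 - 6 * dist s s' / dE E s') - (1 - 6 * dist t s' / dE E s') =
            6 / dE E s' * (dist t s' - dist s s') := by ring
        rw [h7, abs_mul, abs_of_pos (by positivity : 0 < 6 / dE E s')]
        refine mul_le_mul_of_nonneg_left ?_ (by positivity)
        have := abs_dist_sub_le t s s'
        rwa [dist_comm t s] at this
      by_cases h8 : χ s' s - χ s' t ≤ 0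
      · have := mul_le_mul_of_nonneg_right (show χ s' s ≤ χ s' t by linarith) hm0
        have := @dist_nonneg _ _ s t
        linarith
      · rw [not_le] at h8
        have h9 : (χ s' s - χ s' t) * min (dE E s) (dE E t) ≤
            (6 / dE E s' * dist s t) * (7 / 6 * dE E s') :=
          mul_le_mul h5 h4 hm0 (by positivity)
        have h10 : (6 / dE E s' * dist s t) * (7 / 6 * dE E s') = 7 * dist s t := by
          field_simp
        rw [h10, sub_mul] at h9
        linarith
  by_cases hS : S.Nonempty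
  · set ψ : M → ℝ := fun s => S.sup' hS (fun s' => χ s' s) with hψ
    have hle : ∀ s' ∈ S, ∀ s, χ s' s ≤ ψ s := fun s' hs' s =>
      Finset.le_sup' (fun s' => χ s' s) hs'
    have hex : ∀ s, ∃ s' ∈ S, ψ s = χ s' s := fun s => by
      obtain ⟨s', hs', h⟩ := Finset.exists_mem_eq_sup' hS (fun s' => χ s' s)
      exact ⟨s', hs', h⟩
    have hdir : ∀ s t, ψ s * min (dE E s) (dE E t) ≤ ψ t * min (dE E s) (dE E t) + 7 * dist s t := by
      intro s t
      obtain ⟨s', hs', h⟩ := hex s
      rw [h]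
      refine (hkey s' hs' s t).trans ?_
      have hm0 : 0 ≤ min (dE E s) (dE E t) := le_min (dE_nonneg _ _) (dE_nonneg _ _)
      have := mul_le_mul_of_nonneg_right (hle s' hs' t) hm0
      linarith
    refine ⟨ψ, fun s => ?_, fun s hs => ?_, fun s hne => ?_, fun s t => ?_⟩
    · obtain ⟨s', hs', h⟩ := hex s
      rw [h]
      exact ⟨hχ0 s' s, hχ1 s' hs' s⟩
    · obtain ⟨s', hs', h⟩ := hex s
      apply le_antisymm
      · rw [h]; exact hχ1 s' hs' s
      · have h1 := hle s hs s
        have h2 : χ s s = 1 := by simp only [hχ]; rw [dist_self]; simp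
        rw [h2] at h1; exact h1
    · obtain ⟨s', hs', h⟩ := hex s
      rw [h] at hne
      exact ⟨s', hs', hχne s' hs' s hne⟩
    · have hm0 : 0 ≤ min (dE E s) (dE E t) := le_min (dE_nonneg _ _) (dE_nonneg _ _)
      have h1 := hdir s t
      have h2 := hdir t s
      rw [min_comm (dE E t) (dE E s), dist_comm t s] at h2
      rw [← abs_of_nonneg hm0, ← abs_mul, abs_le, sub_mul]
      constructor <;> linarith
  · rw [Finset.not_nonempty_iff_eq_empty] at hS
    subst hS
    refine ⟨fun _ => 0, fun s => ⟨le_rfl, zero_le_one⟩, fun s hs => absurd hs (Finset.notMem_empty s),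
      fun s hne => absurd rfl hne, fun s t => ?_⟩
    rw [sub_self, abs_zero, zero_mul]
    positivity

end

end Pool.Agent.Y838.SP
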