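import Mathlib
import Pool.Agent.Y838.SP.A

set_option autoImplicit false

/-!
The location detection with uniform constants.
-/

namespace Pool.Agent.Y838.SP

open Finset Pool.Agent.H262.FP

noncomputable section

open scoped Classical

variable {M : Type*} [MetricSpace M] {p : ℝ}

/-- a finite halving sequence between `r` and `R` is short -/
theorem card_halving {r R : ℝ} (hr : 0 < r) {J : ℕ} (hJ : R ≤ 2 ^ J * r) (a : ℕ → ℝ) (S : Finset ℕ)
    (h1 : ∀ k ∈ S, r < a k ∧ a k ≤ R) (h2 : ∀ k ∈ S, ∀ l ∈ S, k < l → 2 * a l ≤ a k) :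
    S.card ≤ J := by
  have key : ∀ T : Finset ℕ, T ⊆ S → T.Nonempty →
      ∃ m ∈ T, (∀ k ∈ T, k ≤ m) ∧ 2 ^ (T.card - 1) * a m ≤ R := by
    intro T
    induction T using Finset.induction_on_max with
    | empty => intro _ h; exact absurd h Finset.not_nonempty_empty
    | insert b T hb ih =>
      intro hsub _
      by_cases hT : T.Nonempty
      · obtain ⟨m, hm, hmax, hle⟩ := ih ((Finset.subset_insert _ _).trans hsub) hT
        refine ⟨b, Finset.mem_insert_self _ _, ?_, ?_⟩
        · intro k hk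
          rcases Finset.mem_insert.mp hk with h | h
          · exact h.le
          · exact (hb k h).le
        · have hbT : b ∉ T := fun h => lt_irrefl _ (hb b h)
          rw [Finset.card_insert_of_notMem hbT, Nat.add_sub_cancel]
          have h3 := h2 m (hsub (Finset.mem_insert_of_mem hm)) b (hsub (Finset.mem_insert_self _ _)) (hb m hm)
          have h4 : 2 ^ T.card = (2:ℝ) ^ (T.card - 1) * 2 := by
            rw [← pow_succ]
            congr 1
            have := Finset.card_pos.mpr hT
            omega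
          rw [h4, mul_assoc]
          exact (mul_le_mul_of_nonneg_left h3 (by positivity)).trans hle
      · rw [Finset.not_nonempty_iff_eq_empty] at hT
        subst hT
        refine ⟨b, Finset.mem_insert_self _ _, ?_, ?_⟩
        · intro k hk
          rcases Finset.mem_insert.mp hk with h | h
          · exact h.le
          · exact absurd h (Finset.notMem_empty k)
        · have := (h1 b (hsub (Finset.mem_insert_self _ _))).2
          simpa using this
  by_cases hS : S.Nonempty
  · obtain ⟨m, hm, _, hle⟩ := key S subset_rfl hS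
    by_contra hcon
    rw [not_le] at hcon
    have h3 : J ≤ S.card - 1 := by omega
    have h4 : (2:ℝ) ^ J ≤ 2 ^ (S.card - 1) := pow_le_pow_right₀ (by norm_num) h3
    have h5 := (h1 m hm).1
    have h6 : (2:ℝ) ^ J * r < 2 ^ (S.card - 1) * a m :=
      calc (2:ℝ) ^ J * r < 2 ^ J * a m := mul_lt_mul_of_pos_left h5 (by positivity)
        _ ≤ 2 ^ (S.card - 1) * a m := mul_le_mul_of_nonneg_right h4 (hr.trans h5).le
    linarith
  · rw [Finset.not_nonempty_iff_eq_empty] at hS
    subst hS
    simp

theorem sum_biUnion_le' {α β : Type*} (F : Finset α) (g : α → Finset β) (f : β → ℝ)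
    (hf : ∀ s, 0 ≤ f s) : ∑ s ∈ F.biUnion g, f s ≤ ∑ j ∈ F, ∑ s ∈ g j, f s := by
  induction F using Finset.induction_on with
  | empty => simp
  | insert a F ha ih =>
    rw [Finset.biUnion_insert, Finset.sum_insert ha]
    have h1 : ∑ s ∈ g a ∪ F.biUnion g, f s ≤ ∑ s ∈ g a, f s + ∑ s ∈ F.biUnion g, f s := by
      rw [← Finset.sum_union_inter]
      have : 0 ≤ ∑ s ∈ g a ∩ F.biUnion g, f s := Finset.sum_nonneg (fun _ _ => hf _)
      linarith
    linarith

/-- **Uniform location detection** -/
theorem locU (hp : 0 < p) (hp1 : p ≤ 1) (o : M) {y : ℕ → M →₀ ℝ} {A : ℝ}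
    (hA : ∀ n (S : Finset M), mass p S (y n) ≤ A) {R : ℝ} (hR : 0 < R)
    (hrad : ∀ n, ∀ s ∈ (y n).support, dist s o ≤ R) {c : ℝ} (hc : 0 < c)
    (hfar : ∀ (E : Finset M), o ∈ E → ∀ n0, ∃ n, n0 ≤ n ∧ c ≤ nn p (ωq p E) o (y n)) :
    DetU (nn p (ωf p) o) p y (2 * (1 + (7:ℝ) ^ p)) (c / 2) := by
  have hA0 : 0 ≤ A := le_trans (by simp [mass]) (hA 0 ∅)
  have step : ∀ σ : ℕ × Finset M, ∃ n' : ℕ, σ.1 < n' ∧
      c ≤ nn p (ωq p (insert o σ.2)) o (y n') := by
    rintro ⟨n, E⟩
    obtain ⟨n', hn', h1⟩ := hfar (insert o E) (Finset.mem_insert_self _ _) (n+1)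
    exact ⟨n', by simp only; omega, h1⟩
  choose G hG using step
  set seq : ℕ → ℕ × Finset M := fun k => Nat.rec (0, ∅)
    (fun _ σ => (G σ, insert o σ.2 ∪ (y (G σ)).support)) k with hseq
  have hs1 : ∀ k, seq (k+1) = (G (seq k), insert o (seq k).2 ∪ (y (G (seq k))).support) := fun k => rfl
  set ν : ℕ → ℕ := fun k => G (seq k) with hνdef
  set E : ℕ → Finset M := fun k => insert o (seq k).2 with hE
  have hoE : ∀ k, o ∈ E k := fun k => Finset.mem_insert_self _ _
  have hν : StrictMono ν := by
    apply strictMono_nat_of_lt_succ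
    intro k
    have := (hG (seq (k+1))).1
    rw [hs1] at this
    simp only [hνdef]
    rw [hs1]
    exact this
  have hlow : ∀ k, c ≤ nn p (ωq p (E k)) o (y (ν k)) := fun k => (hG (seq k)).2
  have hEstep : ∀ k, E k ⊆ E (k+1) ∧ (y (ν k)).support ⊆ E (k+1) := by
    intro k
    constructor
    · intro a ha
      simp only [hE]
      rw [hs1]
      exact Finset.mem_insert_of_mem (Finset.mem_union_left _ ha)
    · intro a ha
      simp only [hE]
      rw [hs1]
      exact Finset.mem_insert_of_mem (Finset.mem_union_right _ ha)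
  have hEmono : ∀ k l, k ≤ l → E k ⊆ E l := by
    intro k l hkl
    induction l, hkl using Nat.le_induction with
    | base => exact subset_rfl
    | succ l _ ih => exact ih.trans (hEstep l).1
  -- the small radius
  set r : ℝ := (c / (4 * (A + 1))) ^ (1 / p) with hr
  have hr0 : 0 < r := Real.rpow_pos_of_pos (by positivity) _
  have hrp : r ^ p = c / (4 * (A + 1)) := by
    rw [hr, ← Real.rpow_mul (by positivity), one_div_mul_cancel hp.ne', Real.rpow_one]
  have hAr : A * r ^ p ≤ c / 4 := by
    rw [hrp, mul_div_assoc', div_le_div_iff₀ (by positivity) (by norm_num)]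
    nlinarith
  set D : ℕ → M → ℝ := fun k s => dE (E k) s with hD
  set Nk : ℕ → Finset M := fun k => (y (ν k)).support.filter (fun s => r < D k s) with hNk
  set U : ℕ → M → Prop := fun k s => ∃ s' ∈ Nk k, dist s s' < D k s' / 3 with hU
  have hNE : ∀ k l, k < l → ∀ s ∈ Nk k, s ∈ E l := by
    intro k l hkl s hs
    simp only [hNk, Finset.mem_filter] at hs
    exact hEmono (k+1) l hkl ((hEstep k).2 hs.1)
  obtain ⟨J, hJ⟩ : ∃ J : ℕ, R ≤ 2 ^ J * r := by
    obtain ⟨J, hJ⟩ := pow_unbounded_of_one_lt (R / r) (show (1:ℝ) < 2 by norm_num)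
    refine ⟨J, ?_⟩
    rw [div_lt_iff₀ hr0] at hJ
    exact hJ.le
  have hcount : ∀ (s : M) (F : Finset ℕ), (F.filter (fun k => U k s)).card ≤ J := by
    intro s F
    have hch : ∀ k, ∃ s', U k s → s' ∈ Nk k ∧ dist s s' < D k s' / 3 := by
      intro k
      by_cases h : U k s
      · obtain ⟨s', h1, h2⟩ := h
        exact ⟨s', fun _ => ⟨h1, h2⟩⟩
      · exact ⟨s, fun h' => absurd h' h⟩
    choose g hg using hch
    refine card_halving hr0 hJ (fun k => D k (g k)) _ ?_ ?_
    · intro k hk
      rw [Finset.mem_filter] at hk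
      obtain ⟨h1, _⟩ := hg k hk.2
      simp only [hNk, Finset.mem_filter] at h1
      exact ⟨h1.2, (dE_le _ (hoE k)).trans (hrad _ _ h1.1)⟩
    · intro k hk l hl hkl
      rw [Finset.mem_filter] at hk hl
      obtain ⟨h1, h2⟩ := hg k hk.2
      obtain ⟨h3, h4⟩ := hg l hl.2
      have h5 : D l (g l) ≤ dist (g l) (g k) := dE_le _ (hNE k l hkl _ h1)
      have h6 : dist (g l) (g k) ≤ dist s (g l) + dist s (g k) := dist_triangle_left _ _ _
      linarith
  -- the overlap matrix
  set q : ℕ → ℕ → ℝ := fun l k => ∑ s ∈ (Nk l).filter (fun s => U k s), |y (ν l) s| ^ p with hq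
  have hq0 : ∀ l k, 0 ≤ q l k := fun l k => Finset.sum_nonneg (fun _ _ => abs_rpow_nonneg _)
  have hrow : ∀ l (F : Finset ℕ), ∑ k ∈ F, q l k ≤ J * A := by
    intro l F
    have h1 : ∑ k ∈ F, q l k = ∑ s ∈ Nk l, ((F.filter (fun k => U k s)).card : ℝ) * |y (ν l) s| ^ p := by
      simp only [hq]
      simp_rw [Finset.sum_filter]
      rw [Finset.sum_comm]
      refine Finset.sum_congr rfl (fun s _ => ?_)
      rw [← Finset.sum_filter, Finset.sum_const, nsmul_eq_mul]
    rw [h1]
    have h2 : ∑ s ∈ Nk l, ((F.filter (fun k => U k s)).card : ℝ) * |y (ν l) s| ^ p ≤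
        ∑ s ∈ Nk l, (J:ℝ) * |y (ν l) s| ^ p := by
      refine Finset.sum_le_sum (fun s _ => ?_)
      exact mul_le_mul_of_nonneg_right (by exact_mod_cast hcount s F) (abs_rpow_nonneg _)
    refine h2.trans ?_
    rw [← Finset.mul_sum]
    exact mul_le_mul_of_nonneg_left (hA (ν l) (Nk l)) (Nat.cast_nonneg J)
  have hRp : 0 < R ^ p := Real.rpow_pos_of_pos hR _
  set ε : ℝ := c / (4 * R ^ p) with hε
  have hε0 : 0 < ε := by positivity
  obtain ⟨K, hK⟩ := exists_nat_ge (J * A / ε)
  have hK' : J * A ≤ K * ε := by rwa [div_le_iff₀ hε0] at hK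
  obtain ⟨φ, hφ, hφ2⟩ := rosenthal_aux ε hε0 K q hq0 (fun i F => (hrow i F).trans hK')
  -- the good new points
  set N' : ℕ → Finset M := fun i => (Nk (φ i)).filter (fun s => ∀ j, j < i → ¬ U (φ j) s) with hN'
  have hcut : ∀ i, ∃ ψ : M → ℝ, (∀ s, 0 ≤ ψ s ∧ ψ s ≤ 1) ∧ (∀ s ∈ N' i, ψ s = 1) ∧
      (∀ s, ψ s ≠ 0 → ∃ s' ∈ N' i, dist s s' < dE (E (φ i)) s' / 6) ∧
      (∀ s t, |ψ s - ψ t| * min (dE (E (φ i)) s) (dE (E (φ i)) t) ≤ 7 * dist s t) := by
    intro i
    apply exists_cutoff
    intro s hs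
    simp only [hN', hNk, Finset.mem_filter] at hs
    exact hr0.trans hs.1.2
  choose ψ hψ1 hψ2 hψ3 hψ4 using hcut
  have hdis : ∀ s i j, j < i → ψ i s ≠ 0 → ψ j s ≠ 0 → False := by
    intro s i j hji hi hj
    obtain ⟨a, ha, h1⟩ := hψ3 i s hi
    obtain ⟨b, hb, h2⟩ := hψ3 j s hj
    simp only [hN', Finset.mem_filter] at ha hb
    have h3 : dE (E (φ i)) a ≤ dist a b := dE_le _ (hNE _ _ (hφ hji) b hb.1)
    have h4 : dist a b ≤ dist s a + dist s b := dist_triangle_left _ _ _
    apply ha.2 j hji
    refine ⟨b, hb.1, ?_⟩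
    simp only [hD]
    have h5 := dE_nonneg (E (φ j)) b
    linarith
  refine ⟨fun i => ν (φ i), fun i v => nn p (ωq p (E (φ i))) o (mulop (ψ i) v),
    fun i j hij => hν (hφ hij), fun i => (isPF_q hp hp1 (E (φ i)) o).comp (mulop (ψ i)), ?_, ?_⟩
  · intro v F
    refine mulq_family hp hp1 o (fun i => E (φ i)) (fun i => hoE _) ψ ?_ (by norm_num) hψ4 ?_ v F
    · intro i s
      rw [abs_of_nonneg (hψ1 i s).1]; exact (hψ1 i s).2
    · intro s i j hi hj
      by_contra hne
      rcases lt_or_gt_of_ne hne with h | h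
      · exact hdis s j i h hj hi
      · exact hdis s i j h hi hj
  · intro i
    beta_reduce
    set u := y (ν (φ i)) with hu
    set w := u - mulop (ψ i) u with hw
    have h1 := hlow (φ i)
    have hPF := isPF_q hp hp1 (E (φ i)) o
    have h2 : mulop (ψ i) u = u - w := by rw [hw]; abel
    have h3 : nn p (ωq p (E (φ i))) o u ≤ nn p (ωq p (E (φ i))) o (mulop (ψ i) u) +
        nn p (ωq p (E (φ i))) o w := by
      have h4 := hPF.add_le (mulop (ψ i) u) w
      rwa [h2, sub_add_cancel, ← h2] at h4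
    have hwa : ∀ s, w s = (1 - ψ i s) * u s := by
      intro s
      rw [hw, Finsupp.sub_apply, mulop_apply]; ring
    have hws : w.support ⊆ u.support := by
      intro s hs
      rw [Finsupp.mem_support_iff] at hs ⊢
      intro h0
      apply hs
      rw [hwa, h0, mul_zero]
    set bad := (Nk (φ i)).filter (fun s => ∃ j, j < i ∧ U (φ j) s) with hbad
    have hbadsum : ∑ s ∈ bad, |u s| ^ p ≤ ε := by
      have h4 := hφ2 i (Finset.range i) Finset.notMem_range_self
      refine le_trans ?_ h4
      have h5 : bad ⊆ (Finset.range i).biUnion (fun j => (Nk (φ i)).filter (fun s => U (φ j) s)) := by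
        intro s hs
        simp only [hbad, Finset.mem_filter] at hs
        obtain ⟨h6, j, h7, h8⟩ := hs
        rw [Finset.mem_biUnion]
        exact ⟨j, Finset.mem_range.mpr h7, Finset.mem_filter.mpr ⟨h6, h8⟩⟩
      refine (Finset.sum_le_sum_of_subset_of_nonneg h5 (fun _ _ _ => abs_rpow_nonneg _)).trans ?_
      simp only [hq]
      exact sum_biUnion_le' _ _ _ (fun _ => abs_rpow_nonneg _)
    have h4 : nn p (ωq p (E (φ i))) o w ≤ c / 4 + c / 4 := by
      refine (nnq_le hp hp1 (hoE (φ i)) w).trans ?_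
      have h5 : ∀ s ∈ w.support, |w s| ^ p * dE (E (φ i)) s ^ p ≤
          |u s| ^ p * r ^ p + (if s ∈ bad then |u s| ^ p * R ^ p else 0) := by
        intro s hs
        have hus := hws hs
        have hw1 : |w s| ^ p ≤ |u s| ^ p := by
          rw [hwa]
          refine Real.rpow_le_rpow (abs_nonneg _) ?_ hp.le
          rw [abs_mul]
          have h6 : |1 - ψ i s| ≤ 1 := by
            rw [abs_le]
            have := hψ1 i s
            constructor <;> linarith
          have h7 := abs_nonneg (u s)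
          nlinarith
        have hD0 := dE_nonneg (E (φ i)) s
        have hu0 := abs_rpow_nonneg (p := p) (u s)
        by_cases h6 : r < dE (E (φ i)) s
        · have h7 : s ∈ Nk (φ i) := by
            simp only [hNk, Finset.mem_filter]
            exact ⟨hus, h6⟩
          have h8 : s ∈ bad := by
            by_contra hnb
            have h9 : s ∈ N' i := by
              simp only [hN', Finset.mem_filter]
              refine ⟨h7, fun j hj hUj => hnb ?_⟩
              simp only [hbad, Finset.mem_filter]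
              exact ⟨h7, j, hj, hUj⟩
            rw [Finsupp.mem_support_iff] at hs
            apply hs
            rw [hwa, hψ2 i s h9, sub_self, zero_mul]
          rw [if_pos h8]
          have h9 : dE (E (φ i)) s ^ p ≤ R ^ p :=
            Real.rpow_le_rpow hD0 ((dE_le _ (hoE _)).trans (hrad _ _ hus)) hp.le
          have h10 : |w s| ^ p * dE (E (φ i)) s ^ p ≤ |u s| ^ p * R ^ p :=
            mul_le_mul hw1 h9 (Real.rpow_nonneg hD0 _) hu0
          have h11 : 0 ≤ |u s| ^ p * r ^ p := mul_nonneg hu0 (Real.rpow_nonneg hr0.le _)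
          linarith
        · rw [not_lt] at h6
          have h7 : |w s| ^ p * dE (E (φ i)) s ^ p ≤ |u s| ^ p * r ^ p :=
            mul_le_mul hw1 (Real.rpow_le_rpow hD0 h6 hp.le) (Real.rpow_nonneg hD0 _) hu0
          have h8 : 0 ≤ (if s ∈ bad then |u s| ^ p * R ^ p else 0) := by
            split_ifs
            · positivity
            · exact le_rfl
          linarith
      refine (Finset.sum_le_sum h5).trans ?_
      rw [Finset.sum_add_distrib]
      refine add_le_add ?_ ?_
      · rw [← Finset.sum_mul]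
        refine le_trans ?_ hAr
        exact mul_le_mul_of_nonneg_right (hA _ _) (Real.rpow_nonneg hr0.le _)
      · rw [← Finset.sum_filter, ← Finset.sum_mul]
        have h6 : ∑ s ∈ w.support.filter (fun s => s ∈ bad), |u s| ^ p ≤ ∑ s ∈ bad, |u s| ^ p := by
          refine Finset.sum_le_sum_of_subset_of_nonneg ?_ (fun _ _ _ => abs_rpow_nonneg _)
          intro s hs
          exact (Finset.mem_filter.mp hs).2
        have h7 : ε * R ^ p = c / 4 := by
          rw [hε]; field_simp
        rw [← h7]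
        exact mul_le_mul_of_nonneg_right (h6.trans hbadsum) hRp.le
    linarith

end

end Pool.Agent.Y838.SP
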