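import Mathlib
import Pool.Agent.Y838.SP.B

set_option autoImplicit false

/-!
Scale and radial detection with constants (the proofs of `H262.FP.scales`, `H262.FP.radial`), and
the approximation theorem with a constant.
-/

namespace Pool.Agent.Y838.SP

open Finset Pool.Agent.H262.FP

noncomputable section

open scoped Classical

variable {M : Type*} [MetricSpace M] {p : ℝ}

/-- Detection I: scales, with constants -/
theorem scalesU (hp : 0 < p) (hp1 : p < 1) (o : M) {x : ℕ → M →₀ ℝ}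
    {c : ℝ} (hLP : ¬ DetU (nn p (ωf p) o) p x 3 (c / 5)) :
    ∃ r : ℝ, 0 < r ∧ ∃ n0, ∀ n, n0 ≤ n → nn p (ωr p r) o (x n) < c := by
  by_contra hcon
  push Not at hcon
  apply hLP
  have step : ∀ (k : ℕ) (σ : ℕ × {α : ℝ // 0 < α}), ∃ (τ : ℕ × {α : ℝ // 0 < α}) (ε r : ℝ),
      σ.1 < τ.1 ∧ 0 < ε ∧ 0 < r ∧ c / 5 ≤ nn p (ωw p ε r) o (x τ.1) ∧
      (∀ d : ℝ, (σ.2 : ℝ) ≤ d → r ^ p ≤ (1/2) ^ k * d ^ p) ∧
      (∀ d : ℝ, 0 ≤ d → d ≤ (τ.2 : ℝ) → d * ε ^ (p - 1) ≤ (1/2) ^ k * d ^ p) ∧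
      (τ.2 : ℝ) ≤ σ.2 := by
    rintro k ⟨n, β, hβ⟩
    set κ : ℝ := (1/2 : ℝ) ^ k with hκ
    have hκ0 : 0 < κ := by positivity
    have hr : 0 < β * κ ^ (1 / p) := mul_pos hβ (Real.rpow_pos_of_pos hκ0 _)
    obtain ⟨n', hn', h1⟩ := hcon (β * κ ^ (1 / p)) hr (n+1)
    obtain ⟨ε, hε, hεr, h2⟩ := exists_window hp hp1.le o (x n') hr h1
    have hα : 0 < min β (ε * κ ^ (1 / (1 - p))) := lt_min hβ (mul_pos hε (Real.rpow_pos_of_pos hκ0 _))
    refine ⟨(n', ⟨min β (ε * κ ^ (1 / (1 - p))), hα⟩), ε, β * κ ^ (1 / p), by simp only; omega, hε,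
      hr, h2, ?_, ?_, min_le_left _ _⟩
    · intro d hd
      rw [Real.mul_rpow hβ.le (Real.rpow_nonneg hκ0.le _), ← Real.rpow_mul hκ0.le,
        one_div_mul_cancel hp.ne', Real.rpow_one, mul_comm]
      exact mul_le_mul_of_nonneg_left (Real.rpow_le_rpow hβ.le hd hp.le) hκ0.le
    · intro d hd0 hd
      rcases eq_or_lt_of_le hd0 with h0 | h0
      · rw [← h0, zero_mul, Real.zero_rpow hp.ne', mul_zero]
      · have h3 : d ≤ ε * κ ^ (1 / (1 - p)) := hd.trans (min_le_right _ _)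
        have h4 : d ^ (1 - p) ≤ ε ^ (1 - p) * κ := by
          have h5 := Real.rpow_le_rpow h0.le h3 (by linarith : (0:ℝ) ≤ 1 - p)
          rw [Real.mul_rpow hε.le (Real.rpow_nonneg hκ0.le _), ← Real.rpow_mul hκ0.le,
            one_div_mul_cancel (by linarith : (1 - p) ≠ 0), Real.rpow_one] at h5
          exact h5
        have h6 : d = d ^ p * d ^ (1 - p) := by
          rw [← Real.rpow_add h0]; simp
        have h7 : ε ^ (1 - p) * ε ^ (p - 1) = 1 := by
          rw [← Real.rpow_add hε]; simp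
        have h8 : 0 ≤ ε ^ (p - 1) := Real.rpow_nonneg hε.le _
        have h9 : 0 ≤ d ^ p := Real.rpow_nonneg hd0 _
        calc d * ε ^ (p - 1) = d ^ p * (d ^ (1 - p) * ε ^ (p - 1)) := by
              conv_lhs => rw [h6]
              ring
          _ ≤ d ^ p * ((ε ^ (1 - p) * κ) * ε ^ (p - 1)) :=
              mul_le_mul_of_nonneg_left (mul_le_mul_of_nonneg_right h4 h8) h9
          _ = κ * d ^ p * (ε ^ (1 - p) * ε ^ (p - 1)) := by ring
          _ = κ * d ^ p := by rw [h7, mul_one]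
  choose G Eps Rr hG using step
  set seq : ℕ → ℕ × {α : ℝ // 0 < α} := fun k => Nat.rec (0, ⟨1, one_pos⟩) (fun j σ => G j σ) k with hseq
  have hs1 : ∀ k, seq (k+1) = G k (seq k) := fun k => rfl
  set ν : ℕ → ℕ := fun k => (seq (k+1)).1 with hνdef
  set ε : ℕ → ℝ := fun k => Eps k (seq k) with hε
  set r : ℕ → ℝ := fun k => Rr k (seq k) with hr
  have hall : ∀ k, (seq k).1 < (seq (k+1)).1 ∧ 0 < ε k ∧ 0 < r k ∧ c / 5 ≤ nn p (ωw p (ε k) (r k)) o (x (ν k)) ∧
      (∀ d : ℝ, ((seq k).2 : ℝ) ≤ d → (r k) ^ p ≤ (1/2) ^ k * d ^ p) ∧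
      (∀ d : ℝ, 0 ≤ d → d ≤ ((seq (k+1)).2 : ℝ) → d * (ε k) ^ (p - 1) ≤ (1/2) ^ k * d ^ p) ∧
      ((seq (k+1)).2 : ℝ) ≤ (seq k).2 := by
    intro k
    exact hG k (seq k)
  have hν : StrictMono ν := strictMono_nat_of_lt_succ (fun k => (hall (k+1)).1)
  have hanti : Antitone (fun k => ((seq k).2 : ℝ)) := antitone_nat_of_succ_le (fun k => (hall k).2.2.2.2.2.2)
  refine ⟨ν, fun k v => nn p (ωw p (ε k) (r k)) o v, hν,
    (fun k => isPF_nn hp hp1.le (ωw_nonneg (hall k).2.1.le (hall k).2.2.1.le) o),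
    ?_, (fun k => (hall k).2.2.2.1)⟩
  intro v F
  refine le_nn hp (ωf_nonneg p) (IsPF.finset_sum F (fun k v => nn p (ωw p (ε k) (r k)) o v)
    (fun k _ => isPF_nn hp hp1.le (ωw_nonneg (hall k).2.1.le (hall k).2.2.1.le) o)) ?_ (by norm_num) ?_ v
  · apply Finset.sum_eq_zero
    intro k _
    exact nn_base (ωw_nonneg (hall k).2.1.le (hall k).2.2.1.le) o
  · intro e
    have hd0 : 0 ≤ dist e.1 e.2 := dist_nonneg
    have h1 : ∀ k ∈ F, nn p (ωw p (ε k) (r k)) o (ed e) ≤ (1/2) ^ k * ωf p e +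
        (if ((seq (k+1)).2 : ℝ) < dist e.1 e.2 ∧ dist e.1 e.2 < ((seq k).2 : ℝ) then ωf p e else 0) := by
      intro k _
      refine (nn_ed_le hp (ωw_nonneg (hall k).2.1.le (hall k).2.2.1.le) o e).trans ?_
      have h2 : 0 ≤ (1/2 : ℝ) ^ k * ωf p e := mul_nonneg (by positivity) (ωf_nonneg p e)
      split_ifs with hcase
      · have : ωw p (ε k) (r k) e ≤ ωf p e := (ωw_le_ωr _ _ _ _).trans (ωr_le_ωf _ _ _)
        linarith
      · rw [add_zero]
        by_cases h3 : ((seq (k+1)).2 : ℝ) < dist e.1 e.2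
        · have h4 : ((seq k).2 : ℝ) ≤ dist e.1 e.2 := by
            by_contra h5
            exact hcase ⟨h3, not_le.mp h5⟩
          exact (ωw_le_ωr _ _ _ _).trans ((min_le_right _ _).trans ((hall k).2.2.2.2.1 _ h4))
        · rw [not_lt] at h3
          exact (min_le_left _ _).trans ((hall k).2.2.2.2.2.1 _ hd0 h3)
    refine (Finset.sum_le_sum h1).trans ?_
    rw [Finset.sum_add_distrib, ← Finset.sum_mul, ← Finset.sum_filter, Finset.sum_const, nsmul_eq_mul]
    have h2 : ∑ k ∈ F, (1/2 : ℝ) ^ k ≤ 2 := by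
      have h3 : Summable (fun k : ℕ => (1/2 : ℝ) ^ k) := summable_geometric_two
      have h4 := h3.sum_le_tsum F (fun k _ => by positivity)
      rwa [tsum_geometric_two] at h4
    have h3 : (F.filter (fun k => ((seq (k+1)).2 : ℝ) < dist e.1 e.2 ∧ dist e.1 e.2 < ((seq k).2 : ℝ))).card ≤ 1 := by
      rw [Finset.card_le_one]
      intro a ha b hb
      rw [Finset.mem_filter] at ha hb
      by_contra hne
      rcases lt_or_gt_of_ne hne with h | h
      · have h4 := hanti (show a + 1 ≤ b from h)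
        simp only at h4
        have := ha.2.1; have := hb.2.2
        linarith
      · have h4 := hanti (show b + 1 ≤ a from h)
        simp only at h4
        have := hb.2.1; have := ha.2.2
        linarith
    have h4 : ((F.filter (fun k => ((seq (k+1)).2 : ℝ) < dist e.1 e.2 ∧ dist e.1 e.2 < ((seq k).2 : ℝ))).card : ℝ) ≤ 1 := by
      exact_mod_cast h3
    have h5 := ωf_nonneg p e
    nlinarith

theorem radialU (hp : 0 < p) (hp1 : p ≤ 1) (o : M) {x : ℕ → M →₀ ℝ}
    {c : ℝ} (hLP : ¬ DetU (nn p (ωf p) o) p x (2 * (1 + (4:ℝ) ^ p)) c) :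
    ∃ ρ : ℝ, 0 < ρ ∧ ∃ n0, ∀ n, n0 ≤ n → nn p (ωf p) o (x n - mulop (gr o ρ) (x n)) < c := by
  by_contra hcon
  push Not at hcon
  apply hLP
  have step : ∀ σ : ℕ × ℝ, ∃ τ : ℕ × ℝ × ℝ, σ.1 < τ.1 ∧ τ.2.1 = 2 * max σ.2 1 ∧ τ.2.1 ≤ τ.2.2 ∧
      (∀ s ∈ (x τ.1).support, dist s o ≤ τ.2.2) ∧
      c ≤ nn p (ωf p) o (x τ.1 - mulop (gr o τ.2.1) (x τ.1)) := by
    rintro ⟨n, b⟩
    have ha : 0 < 2 * max b 1 := by have := le_max_right b 1; linarith
    obtain ⟨n', hn', h1⟩ := hcon (2 * max b 1) ha (n+1)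
    obtain ⟨K, hK⟩ : ∃ K, ∀ s ∈ (x n').support, dist s o ≤ K := by
      obtain ⟨K, hK⟩ := ((x n').support.image (fun s => dist s o)).bddAbove
      exact ⟨K, fun s hs => hK (Finset.mem_coe.mpr (Finset.mem_image_of_mem _ hs))⟩
    refine ⟨(n', 2 * max b 1, max K (2 * max b 1)), ?_, rfl, le_max_right _ _, ?_, h1⟩
    · simp only; omega
    · intro s hs; exact (hK s hs).trans (le_max_left _ _)
  choose G hG using step
  set seq : ℕ → ℕ × ℝ × ℝ := fun k => Nat.rec (G (0, 1)) (fun _ τ => G (τ.1, τ.2.2)) k with hseq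
  have hs0 : seq 0 = G (0, 1) := rfl
  have hs1 : ∀ k, seq (k+1) = G ((seq k).1, (seq k).2.2) := fun k => rfl
  have hall : ∀ k, (2 ≤ (seq k).2.1) ∧ ((seq k).2.1 ≤ (seq k).2.2) ∧
      (∀ s ∈ (x (seq k).1).support, dist s o ≤ (seq k).2.2) ∧
      c ≤ nn p (ωf p) o (x (seq k).1 - mulop (gr o (seq k).2.1) (x (seq k).1)) := by
    intro k
    cases k with
    | zero =>
      rw [hs0]
      obtain ⟨_, h2, h3, h4, h5⟩ := hG (0, 1)
      refine ⟨?_, h3, h4, h5⟩
      rw [h2]; simp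
    | succ k =>
      rw [hs1]
      obtain ⟨_, h2, h3, h4, h5⟩ := hG ((seq k).1, (seq k).2.2)
      refine ⟨?_, h3, h4, h5⟩
      rw [h2]
      have := le_max_right (seq k).2.2 1
      simp only; linarith
  have hstep : ∀ k, 2 * (seq k).2.2 ≤ (seq (k+1)).2.1 := by
    intro k
    rw [hs1]
    obtain ⟨_, h2, _⟩ := hG ((seq k).1, (seq k).2.2)
    rw [h2]
    have := le_max_left (seq k).2.2 1
    simp only; linarith
  have hν : StrictMono (fun k => (seq k).1) := by
    apply strictMono_nat_of_lt_succ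
    intro k
    rw [hs1]
    exact (hG ((seq k).1, (seq k).2.2)).1
  have hmono : ∀ k l, k < l → 2 * (seq k).2.2 ≤ (seq l).2.1 := by
    intro k l hkl
    induction l, hkl using Nat.le_induction with
    | base => exact hstep k
    | succ l _ ih =>
      have h1 := hstep l
      have h2 := (hall l).2.1
      have h3 := (hall l).1
      linarith
  set ψ : ℕ → M → ℝ := fun k s => gr o (seq k).2.2 s - gr o (seq k).2.1 s with hψ
  have hapos : ∀ k, 0 < (seq k).2.1 := fun k => by have := (hall k).1; linarith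
  have hbpos : ∀ k, 0 < (seq k).2.2 := fun k => (hapos k).trans_le (hall k).2.1
  have hsupp : ∀ k s, ψ k s ≠ 0 → (seq k).2.1 < dist s o ∧ dist s o < 2 * (seq k).2.2 := by
    intro k s hne
    constructor
    · by_contra hcon
      rw [not_lt] at hcon
      apply hne
      simp only [hψ]
      rw [gr_eq_one (hbpos k) (hcon.trans (hall k).2.1), gr_eq_one (hapos k) hcon, sub_self]
    · by_contra hcon
      rw [not_lt] at hcon
      apply hne
      simp only [hψ]
      have := (hall k).2.1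
      rw [gr_eq_zero (hbpos k) hcon, gr_eq_zero (hapos k) (by linarith), sub_self]
  refine ⟨fun k => (seq k).1, fun k v => nn p (ωf p) o (mulop (ψ k) v), hν,
    (fun k => (isPF_f hp hp1 o).comp _), ?_, ?_⟩
  · intro v F
    apply mul_family hp hp1 o ψ _ (by norm_num) _ _ v F
    · intro k s
      simp only [hψ]
      rw [abs_le]
      have h1 := gr_nonneg o (seq k).2.2 s
      have h2 := gr_le_one o (seq k).2.2 s
      have h3 := gr_nonneg o (seq k).2.1 s
      have h4 := gr_le_one o (seq k).2.1 s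
      constructor <;> linarith
    · intro k s t
      have h1 := gr_lip' (hbpos k) s t (o := o)
      have h2 := gr_lip' (hapos k) s t (o := o)
      have h3 : |ψ k s - ψ k t| ≤ |gr o (seq k).2.2 s - gr o (seq k).2.2 t| +
          |gr o (seq k).2.1 s - gr o (seq k).2.1 t| := by
        have : ψ k s - ψ k t = (gr o (seq k).2.2 s - gr o (seq k).2.2 t) -
            (gr o (seq k).2.1 s - gr o (seq k).2.1 t) := by simp only [hψ]; ring
        rw [this]; exact abs_sub _ _
      have h4 : 0 ≤ min (dist s o) (dist t o) := le_min dist_nonneg dist_nonneg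
      have h5 := mul_le_mul_of_nonneg_right h3 h4
      rw [add_mul] at h5
      linarith
    · intro s k l hk hl
      by_contra hne
      obtain ⟨h1, h2⟩ := hsupp k s hk
      obtain ⟨h3, h4⟩ := hsupp l s hl
      rcases lt_or_gt_of_ne hne with h | h
      · have := hmono k l h; linarith
      · have := hmono l k h; linarith
  · intro k
    beta_reduce
    have h1 : mulop (ψ k) (x (seq k).1) = x (seq k).1 - mulop (gr o (seq k).2.1) (x (seq k).1) := by
      ext s
      rw [Finsupp.sub_apply, mulop_apply, mulop_apply]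
      by_cases hs : s ∈ (x (seq k).1).support
      · simp only [hψ]
        rw [gr_eq_one (hbpos k) ((hall k).2.2.1 s hs)]; ring
      · rw [Finsupp.notMem_support_iff] at hs
        rw [hs]; ring
    rw [h1]
    exact (hall k).2.2.2


/-- coefficients of an element of the span of a separated finite set are controlled by its norm -/
theorem coeff_le (hp : 0 < p) (hp1 : p ≤ 1) {E : Finset M} {o : M} (ho : o ∈ E) {η : ℝ} (hη : 0 < η)
    (hsep : ∀ s ∈ E, ∀ t ∈ E, s ≠ t → η ≤ dist s t) {w : M →₀ ℝ} (hw : w.support ⊆ E) {s : M}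
    (hs : s ∈ E) (hso : s ≠ o) : |w s| ^ p * η ^ p ≤ nn p (ωf p) o w := by
  set g : M → ℝ := fun t => max 0 (η - dist t s) with hg
  set T : (M →₀ ℝ) →ₗ[ℝ] ℝ := Finsupp.linearCombination ℝ g with hT
  have hPF : IsPF p (fun v => |T v| ^ p) := {
    nonneg := fun v => abs_rpow_nonneg _
    add_le := fun v w => by rw [map_add]; exact abs_add_rpow_le hp hp1 _ _
    smul := fun t v => by rw [map_smul, smul_eq_mul, abs_mul_rpow] }
  have hTd : ∀ t, T (dl t) = g t := by
    intro t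
    rw [hT, Finsupp.linearCombination_single, one_smul]
  have hgE : ∀ t ∈ E, t ≠ s → g t = 0 := by
    intro t ht hts
    have := hsep t ht s hs hts
    simp only [hg]
    exact max_eq_left (by linarith)
  have h1 := le_nn (o := o) hp (ωf_nonneg p) hPF (by
    beta_reduce
    rw [hTd, hgE o ho (Ne.symm hso), abs_zero, Real.zero_rpow hp.ne']) zero_le_one (by
    intro e
    beta_reduce
    rw [one_mul, ed, map_sub, hTd, hTd, ωf]
    refine Real.rpow_le_rpow (abs_nonneg _) ?_ hp.le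
    simp only [hg]
    refine (abs_max_sub_max_le_max _ _ _ _).trans ?_
    rw [sub_self, abs_zero]
    refine max_le dist_nonneg ?_
    have h2 : η - dist e.1 s - (η - dist e.2 s) = dist e.2 s - dist e.1 s := by ring
    rw [h2]
    have := abs_dist_sub_le e.2 e.1 s
    rwa [dist_comm e.2 e.1] at this) w
  have h2 : T w = w s * η := by
    rw [hT, Finsupp.linearCombination_apply, Finsupp.sum]
    rw [Finset.sum_eq_single s]
    · have : g s = η := by simp only [hg]; rw [dist_self, sub_zero, max_eq_right hη.le]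
      rw [this, smul_eq_mul]
    · intro t ht hts
      rw [hgE t (hw ht) hts, smul_zero]
    · intro hns
      rw [Finsupp.notMem_support_iff.mp hns, zero_smul]
  rw [one_mul] at h1
  beta_reduce at h1
  rwa [h2, abs_mul_rpow, abs_of_pos hη] at h1

/-- removing the coefficient at the base point -/
theorem exists_mass_bound (hp : 0 < p) (hp1 : p ≤ 1) {E : Finset M} {o : M} (ho : o ∈ E) (B : ℝ) :
    ∃ B' : ℝ, ∀ w : M →₀ ℝ, w.support ⊆ E → nn p (ωf p) o w ≤ B →
      ∃ w' : M →₀ ℝ, w'.support ⊆ E ∧ mass p E w' ≤ B' ∧ ∃ t : ℝ, w = w' + t • dl o := by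
  obtain ⟨η, hη, hsep⟩ : ∃ η > 0, ∀ s ∈ E, ∀ s' ∈ E, s ≠ s' → η ≤ dist s s' := by
    by_cases hne : ((E ×ˢ E).filter (fun q => q.1 ≠ q.2)).Nonempty
    · obtain ⟨q, hq, hmin⟩ := Finset.exists_min_image _ (fun q : M × M => dist q.1 q.2) hne
      rw [Finset.mem_filter] at hq
      refine ⟨dist q.1 q.2, dist_pos.mpr hq.2, fun s hs s' hs' hss => ?_⟩
      exact hmin (s, s') (Finset.mem_filter.mpr ⟨Finset.mem_product.mpr ⟨hs, hs'⟩, hss⟩)
    · refine ⟨1, one_pos, fun s hs s' hs' hss => ?_⟩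
      exfalso
      apply hne
      exact ⟨(s, s'), Finset.mem_filter.mpr ⟨Finset.mem_product.mpr ⟨hs, hs'⟩, hss⟩⟩
  have hηp : 0 < η ^ p := Real.rpow_pos_of_pos hη _
  refine ⟨E.card * (B / η ^ p), fun w hw hB => ⟨w - (w o) • dl o, ?_, ?_, w o, by abel⟩⟩
  · intro s hs
    rw [Finsupp.mem_support_iff, Finsupp.sub_apply, Finsupp.smul_apply, Finsupp.single_apply] at hs
    by_contra hcon
    have h1 : w s = 0 := Finsupp.notMem_support_iff.mp (fun h => hcon (hw h))
    have h2 : o ≠ s := fun h => hcon (h ▸ ho)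
    rw [h1, if_neg h2] at hs
    simp at hs
  · unfold mass
    rw [← nsmul_eq_mul]
    refine Finset.sum_le_card_nsmul _ _ _ (fun s hs => ?_)
    have hB0 : 0 ≤ B := (nn_nonneg (ωf_nonneg p) o w).trans hB
    rw [Finsupp.sub_apply, Finsupp.smul_apply, Finsupp.single_apply]
    by_cases hso : o = s
    · rw [if_pos hso, hso]
      simp only [smul_eq_mul, mul_one, sub_self, abs_zero]
      rw [Real.zero_rpow hp.ne']
      positivity
    · rw [if_neg hso, smul_zero, sub_zero, le_div_iff₀ hηp]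
      exact (coeff_le hp hp1 ho hη hsep hw hs (Ne.symm hso)).trans hB

/-- long edges only: bounded mass, small error -/
theorem exists_massive (hp : 0 < p) (hp1 : p ≤ 1) (o : M) {r : ℝ} (hr : 0 < r) {c : ℝ}
    {x : M →₀ ℝ} (hx : nn p (ωr p r) o x < c) :
    ∃ z : M →₀ ℝ, (∀ S : Finset M, mass p S z ≤ 2 * (c / r ^ p)) ∧ nn p (ωf p) o (x - z) ≤ c := by
  obtain ⟨f, t, h1, h2⟩ := exists_near hx
  have hrp : 0 < r ^ p := Real.rpow_pos_of_pos hr _
  set L := f.support.filter (fun e => r ≤ dist e.1 e.2) with hL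
  set S' := f.support.filter (fun e => ¬ r ≤ dist e.1 e.2) with hS'
  have hsplit : ∑ e ∈ f.support, f e • ed e = ∑ e ∈ L, f e • ed e + ∑ e ∈ S', f e • ed e :=
    (Finset.sum_filter_add_sum_filter_not _ _ _).symm
  have hcost : ∑ e ∈ L, |f e| ^ p * ωr p r e + ∑ e ∈ S', |f e| ^ p * ωr p r e < c := by
    rw [Finset.sum_filter_add_sum_filter_not]; exact h2
  have hL0 : 0 ≤ ∑ e ∈ L, |f e| ^ p * ωr p r e :=
    Finset.sum_nonneg (fun e _ => mul_nonneg (abs_rpow_nonneg _) (ωr_nonneg hr.le e))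
  have hS0 : 0 ≤ ∑ e ∈ S', |f e| ^ p * ωr p r e :=
    Finset.sum_nonneg (fun e _ => mul_nonneg (abs_rpow_nonneg _) (ωr_nonneg hr.le e))
  refine ⟨∑ e ∈ L, f e • ed e, fun S => ?_, ?_⟩
  · have hPF := isPF_mass (M := M) hp hp1 S
    refine (hPF.sum_le hp _ _).trans ?_
    have h3 : ∑ e ∈ L, mass p S (f e • ed e) ≤ ∑ e ∈ L, 2 * ((|f e| ^ p * ωr p r e) / r ^ p) := by
      refine Finset.sum_le_sum (fun e he => ?_)
      rw [hPF.smul]
      have h4 : ωr p r e = r ^ p := by
        rw [ωr]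
        apply min_eq_right
        rw [hL, Finset.mem_filter] at he
        exact Real.rpow_le_rpow hr.le he.2 hp.le
      rw [h4, mul_div_cancel_right₀ _ hrp.ne']
      have h5 := mass_ed_le hp hp1 S e
      have h6 := abs_rpow_nonneg (p := p) (f e)
      nlinarith
    refine h3.trans ?_
    rw [← Finset.mul_sum, ← Finset.sum_div]
    refine mul_le_mul_of_nonneg_left ?_ (by norm_num)
    exact div_le_div_of_nonneg_right (by linarith) hrp.le
  · have h3 : x - ∑ e ∈ L, f e • ed e = ∑ e ∈ S', f e • ed e + t • dl o := by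
      conv_lhs => rw [h1, bd_apply, hsplit]
      abel
    rw [h3]
    refine ((isPF_f hp hp1 o).add_le _ _).trans ?_
    rw [nn_smul_base hp hp1 (ωf_nonneg p), add_zero]
    refine (nn_sum_le hp hp1 (ωf_nonneg p) o _ _ _).trans ?_
    have h4 : ∑ e ∈ S', |f e| ^ p * ωf p e = ∑ e ∈ S', |f e| ^ p * ωr p r e := by
      refine Finset.sum_congr rfl (fun e he => ?_)
      rw [hS', Finset.mem_filter, not_le] at he
      congr 1
      rw [ωf, ωr, min_eq_left]
      exact Real.rpow_le_rpow dist_nonneg he.2.le hp.le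
    rw [h4]
    linarith

theorem rpow_le_self' {a : ℝ} (ha : 1 ≤ a) (hp1 : p ≤ 1) : a ^ p ≤ a := by
  calc a ^ p ≤ a ^ (1:ℝ) := Real.rpow_le_rpow_of_exponent_le ha hp1
    _ = a := Real.rpow_one _

/-- the radial cutoff is bounded -/
theorem gr_bound (hp : 0 < p) (hp1 : p ≤ 1) (o : M) {ρ : ℝ} (hρ : 0 < ρ) (v : M →₀ ℝ) :
    nn p (ωf p) o (mulop (gr o ρ) v) ≤ 3 * nn p (ωf p) o v := by
  refine le_nn hp (ωf_nonneg p) ((isPF_f hp hp1 o).comp (mulop (gr o ρ))) ?_ (by norm_num) ?_ v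
  · rw [mulop_dl, nn_smul_base hp hp1 (ωf_nonneg p)]
  · intro e
    refine (mul_bound hp hp1 o (gr o ρ) (fun s => ?_) (L := 2) (by norm_num) (fun s t => ?_) e).trans ?_
    · rw [abs_of_nonneg (gr_nonneg o ρ s)]; exact gr_le_one o ρ s
    · exact gr_lip' hρ s t
    · refine mul_le_mul_of_nonneg_right ?_ (ωf_nonneg p e)
      have := rpow_le_self' (p := p) (show (1:ℝ) ≤ 2 by norm_num) hp1
      linarith

/-- **Approximation with a constant**: a bounded sequence which is not detected with the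
given constants is close to a bounded subset of a finite-dimensional space. -/
theorem approxU (hp : 0 < p) (hp1 : p < 1) (o : M) {x : ℕ → M →₀ ℝ} {B : ℝ}
    (hB : ∀ n, nn p (ωf p) o (x n) ≤ B) {c : ℝ} (hc : 0 < c)
    (h1 : ¬ DetU (nn p (ωf p) o) p x 3 (c / 5))
    (h2 : ¬ DetU (nn p (ωf p) o) p x 10 c)
    (h3 : ¬ DetU (nn p (ωf p) o) p x 16 c) :
    ∃ (E : Finset M) (B' : ℝ) (n0 : ℕ), ∀ n, n0 ≤ n → ∃ w : M →₀ ℝ, w.support ⊆ E ∧
      mass p E w ≤ B' ∧ nn p (ωf p) o (x n - w) ≤ 264 * c := by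
  have hPF := isPF_f hp hp1.le o
  have hmono : ∀ (C C' c' : ℝ), C ≤ C' → DetU (nn p (ωf p) o) p x C c' →
      DetU (nn p (ωf p) o) p x C' c' := by
    rintro C C' c' hCC ⟨ν, Q, hν, hQ, hs, hl⟩
    exact ⟨ν, Q, hν, hQ, fun v F => (hs v F).trans
      (mul_le_mul_of_nonneg_right hCC (hPF.nonneg v)), hl⟩
  obtain ⟨r, hr, n1, hr1⟩ := scalesU hp hp1 o h1
  obtain ⟨ρ, hρ, n2, hρ2⟩ := radialU hp hp1.le o (x := x) (c := c) (fun h => h2 (hmono _ _ _ (by
    have := rpow_le_self' (p := p) (show (1:ℝ) ≤ 4 by norm_num) hp1.le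
    linarith) h))
  set n3 := max n1 n2 with hn3
  have hz : ∀ n, ∃ z : M →₀ ℝ, (∀ S : Finset M, mass p S z ≤ 2 * (c / r ^ p)) ∧
      nn p (ωf p) o (x (n3 + n) - z) ≤ c := fun n =>
    exists_massive hp hp1.le o hr (hr1 (n3 + n) (by omega))
  choose z hz1 hz2 using hz
  set y : ℕ → M →₀ ℝ := fun n => mulop (gr o ρ) (z n) with hy
  have hyx : ∀ n, nn p (ωf p) o (x (n3 + n) - y n) ≤ 4 * c := by
    intro n
    have h4 : x (n3 + n) - y n = (x (n3 + n) - mulop (gr o ρ) (x (n3 + n))) +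
        mulop (gr o ρ) (x (n3 + n) - z n) := by
      simp only [hy]; rw [map_sub]; abel
    rw [h4]
    refine (hPF.add_le _ _).trans ?_
    have h5 := hρ2 (n3 + n) (by omega)
    have h6 := gr_bound hp hp1.le o hρ (x (n3 + n) - z n)
    have h7 := hz2 n
    linarith
  have hymass : ∀ n (S : Finset M), mass p S (y n) ≤ 2 * (c / r ^ p) := by
    intro n S
    refine le_trans ?_ (hz1 n S)
    unfold mass
    refine Finset.sum_le_sum (fun s _ => ?_)
    simp only [hy]
    rw [mulop_apply]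
    refine Real.rpow_le_rpow (abs_nonneg _) ?_ hp.le
    rw [abs_mul, abs_of_nonneg (gr_nonneg o ρ s)]
    have h4 := gr_le_one o ρ s
    have h5 := abs_nonneg (z n s)
    nlinarith
  have hyrad : ∀ n, ∀ s ∈ (y n).support, dist s o ≤ 2 * ρ := by
    intro n s hs
    by_contra hcon
    rw [not_le] at hcon
    rw [Finsupp.mem_support_iff] at hs
    apply hs
    simp only [hy]
    rw [mulop_apply, gr_eq_zero hρ hcon.le, zero_mul]
  by_contra hcon
  push Not at hcon
  have hfar : ∀ (E : Finset M), o ∈ E → ∀ n0, ∃ n, n0 ≤ n ∧ 130 * c ≤ nn p (ωq p E) o (y n) := by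
    intro E hoE n0
    obtain ⟨B', hB'⟩ := exists_mass_bound hp hp1.le hoE (B + 4 * c + 2 * (130 * c))
    obtain ⟨n, hn, hfar⟩ := hcon E B' (n3 + n0)
    refine ⟨n - n3, by omega, ?_⟩
    by_contra hlt
    rw [not_le] at hlt
    obtain ⟨w, hw1, hw2⟩ := near_of_nnq hp hp1.le hoE hlt
    have hnn : n3 + (n - n3) = n := by omega
    have h4 := hyx (n - n3)
    rw [hnn] at h4
    have h5 : w = x n - (x n - y (n - n3)) - (y (n - n3) - w) := by abel
    have h6 : nn p (ωf p) o w ≤ B + 4 * c + 2 * (130 * c) := by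
      rw [h5]
      have h7 := hPF.sub_le (x n - (x n - y (n - n3))) (y (n - n3) - w)
      have h8 := hPF.sub_le (x n) (x n - y (n - n3))
      have h9 := hB n
      linarith
    obtain ⟨w', hw3, hw4, t, hw5⟩ := hB' w hw1 h6
    have h7 := hfar w' hw3 hw4
    have h8 : x n - w' = ((x n - y (n - n3)) + (y (n - n3) - w)) + t • dl o := by
      rw [hw5]; abel
    rw [h8] at h7
    have h9 := hPF.add_le ((x n - y (n - n3)) + (y (n - n3) - w)) (t • dl o)
    rw [nn_smul_base hp hp1.le (ωf_nonneg p)] at h9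
    have h10 := hPF.add_le (x n - y (n - n3)) (y (n - n3) - w)
    linarith
  obtain ⟨ν, Q, hν, hQ, hs, hl⟩ := locU hp hp1.le o hymass (by positivity : 0 < 2 * ρ) hyrad
    (by positivity : 0 < 130 * c) hfar
  apply h3
  have h7p := rpow_le_self' (p := p) (show (1:ℝ) ≤ 7 by norm_num) hp1.le
  have hs' : ∀ v (F : Finset ℕ), ∑ k ∈ F, Q k v ≤ 16 * nn p (ωf p) o v := fun v F =>
    (hs v F).trans (mul_le_mul_of_nonneg_right (by linarith) (hPF.nonneg v))
  refine ⟨fun k => n3 + ν k, Q, fun a b hab => by have := hν hab; simp only; omega, hQ, hs',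
    fun k => ?_⟩
  have h4 := hl k
  have h5 := hs' (x (n3 + ν k) - y (ν k)) {k}
  rw [Finset.sum_singleton] at h5
  have h6 := hyx (ν k)
  have h7 : y (ν k) = x (n3 + ν k) - (x (n3 + ν k) - y (ν k)) := by abel
  have h8 := (hQ k).sub_le (x (n3 + ν k)) (x (n3 + ν k) - y (ν k))
  rw [← h7] at h8
  linarith

end

end Pool.Agent.Y838.SP
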