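import Mathlib
import Pool.Agent.H262.FK5
import Pool.Agent.Y838.SP.C

set_option autoImplicit false

/-!
The main theorem over `ℝ` and `ℂ` with an absolute constant (the proofs follow `H262.FK3`).
-/

namespace Pool.Agent.Y838.SP

open Finset Pool.Agent.H262.FP Pool.Agent.H262.FreeP

noncomputable section

open scoped Classical

variable {𝕜 : Type} [RCLike 𝕜] {p : ℝ}

/-- lower `ℓ_p`-estimate for a subsequence with constant `κ`, scalars `𝕜` -/
def LPKc (𝕜 : Type) [RCLike 𝕜] {W : Type*} [AddCommGroup W] [Module 𝕜 W] (N : W → ℝ) (p : ℝ)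
    (x : ℕ → W) (κ : ℝ) : Prop :=
  ∃ φ : ℕ → ℕ, StrictMono φ ∧ ∀ (F : Finset ℕ) (β : ℕ → 𝕜),
    κ * ∑ k ∈ F, ‖β k‖ ^ p ≤ N (∑ k ∈ F, β k • x (φ k))

theorem principleKc {W : Type*} [AddCommGroup W] [Module 𝕜 W] {N : W → ℝ}
    {x : ℕ → W} {B : ℝ} (hB : ∀ n, N (x n) ≤ B) {Q : ℕ → W → ℝ}
    (hQ0 : ∀ k v, 0 ≤ Q k v) (hQa : ∀ k v w, Q k (v + w) ≤ Q k v + Q k w)
    (hQn : ∀ k v, Q k (-v) = Q k v) (hQz : ∀ k, Q k 0 = 0)
    (hQ1 : ∀ k (t : 𝕜) v, Q k (t • v) ≤ 2 * ‖t‖ ^ p * Q k v)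
    (hQ2 : ∀ k (t : 𝕜) v, ‖t‖ ^ p * Q k v ≤ 2 * Q k (t • v))
    {C : ℝ} (hC : 0 < C) (hsum : ∀ v (F : Finset ℕ), ∑ k ∈ F, Q k v ≤ C * N v)
    {ν : ℕ → ℕ} (hν : StrictMono ν) {c : ℝ} (hc : 0 < c) (hlow : ∀ k, c ≤ Q k (x (ν k))) :
    LPKc 𝕜 N p x (c / (4 * C)) := by
  obtain ⟨K, hK⟩ := exists_nat_ge (C * B / (c / 8))
  have hK' : C * B ≤ K * (c / 8) := by
    rwa [div_le_iff₀ (by positivity)] at hK
  obtain ⟨φ, hφ, hφ2⟩ := rosenthal_aux (c / 8) (by positivity) K (fun i j => Q j (x (ν i)))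
    (fun i j => hQ0 _ _)
    (fun i F => ((hsum (x (ν i)) F).trans (mul_le_mul_of_nonneg_left (hB _) hC.le)).trans hK')
  refine ⟨fun i => ν (φ i), fun i j hij => hν (hφ hij), fun F β => ?_⟩
  have hQs : ∀ k (s : Finset ℕ) (f : ℕ → W), Q k (∑ i ∈ s, f i) ≤ ∑ i ∈ s, Q k (f i) := by
    intro k s f
    induction s using Finset.induction_on with
    | empty => simp [hQz]
    | insert a s ha ih =>
      rw [Finset.sum_insert ha, Finset.sum_insert ha]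
      exact (hQa _ _ _).trans (by linarith)
  set v := ∑ k ∈ F, β k • x (ν (φ k)) with hv
  have h1 : ∀ j ∈ F, ‖β j‖ ^ p * c ≤ 2 * Q (φ j) v +
      ∑ i ∈ F.erase j, 4 * ‖β i‖ ^ p * Q (φ j) (x (ν (φ i))) := by
    intro j hj
    have h2 : β j • x (ν (φ j)) = v + -∑ i ∈ F.erase j, β i • x (ν (φ i)) := by
      rw [hv, ← Finset.add_sum_erase F _ hj]; abel
    have h3 : Q (φ j) (β j • x (ν (φ j))) ≤ Q (φ j) v + ∑ i ∈ F.erase j, 2 * ‖β i‖ ^ p * Q (φ j) (x (ν (φ i))) := by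
      rw [h2]
      refine (hQa _ _ _).trans (add_le_add le_rfl ?_)
      rw [hQn]
      refine (hQs _ _ _).trans ?_
      exact Finset.sum_le_sum (fun i _ => hQ1 _ _ _)
    have h4 := hQ2 (φ j) (β j) (x (ν (φ j)))
    have h5 : ‖β j‖ ^ p * c ≤ ‖β j‖ ^ p * Q (φ j) (x (ν (φ j))) :=
      mul_le_mul_of_nonneg_left (hlow (φ j)) (norm_rpow_nonneg _)
    have h6 : ∑ i ∈ F.erase j, 4 * ‖β i‖ ^ p * Q (φ j) (x (ν (φ i)))
        = 2 * ∑ i ∈ F.erase j, 2 * ‖β i‖ ^ p * Q (φ j) (x (ν (φ i))) := by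
      rw [Finset.mul_sum]; exact Finset.sum_congr rfl (fun i _ => by ring)
    rw [h6]
    linarith
  have h4 : ∑ j ∈ F, Q (φ j) v ≤ C * N v := by
    have := hsum v (F.image φ)
    rwa [Finset.sum_image (fun a _ b _ hab => hφ.injective hab)] at this
  have h5 : ∑ j ∈ F, ∑ i ∈ F.erase j, 4 * ‖β i‖ ^ p * Q (φ j) (x (ν (φ i)))
      = ∑ i ∈ F, (4 * ‖β i‖ ^ p) * ∑ j ∈ F.erase i, Q (φ j) (x (ν (φ i))) := by
    have h6 : ∀ j ∈ F, ∑ i ∈ F.erase j, 4 * ‖β i‖ ^ p * Q (φ j) (x (ν (φ i)))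
        = ∑ i ∈ F, if i ≠ j then 4 * ‖β i‖ ^ p * Q (φ j) (x (ν (φ i))) else 0 := by
      intro j _
      rw [← Finset.sum_filter]
      congr 1
      ext i; simp [and_comm]
    have h7 : ∀ i ∈ F, (4 * ‖β i‖ ^ p) * ∑ j ∈ F.erase i, Q (φ j) (x (ν (φ i)))
        = ∑ j ∈ F, if i ≠ j then 4 * ‖β i‖ ^ p * Q (φ j) (x (ν (φ i))) else 0 := by
      intro i _
      rw [← Finset.sum_filter, Finset.mul_sum]
      congr 1
      ext j; simp [and_comm, eq_comm]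
    rw [Finset.sum_congr rfl h6, Finset.sum_congr rfl h7, Finset.sum_comm]
  have h8 : ∑ i ∈ F, (4 * ‖β i‖ ^ p) * ∑ j ∈ F.erase i, Q (φ j) (x (ν (φ i)))
      ≤ ∑ i ∈ F, (4 * ‖β i‖ ^ p) * (c / 8) := by
    refine Finset.sum_le_sum (fun i _ => ?_)
    exact mul_le_mul_of_nonneg_left (hφ2 i (F.erase i) (Finset.notMem_erase i F))
      (mul_nonneg (by norm_num) (norm_rpow_nonneg _))
  have h9 := Finset.sum_le_sum h1
  rw [Finset.sum_add_distrib, h5, ← Finset.sum_mul, ← Finset.mul_sum] at h9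
  rw [← Finset.sum_mul, ← Finset.mul_sum] at h8
  rw [div_mul_eq_mul_div, div_le_iff₀ (by positivity)]
  nlinarith


variable {M : Type} [MetricSpace M]

theorem LPKc_of_det (hp : 0 < p) (hp1 : p ≤ 1) (o : M) {x : ℕ → M →₀ 𝕜} {B : ℝ}
    (hB : ∀ n, nnK p o (x n) ≤ B) {C c : ℝ} (hC : 0 < C) (hc : 0 < c)
    (h : DetU (nn p (ωf p) o) p (fun n => reF (x n)) C c ∨
      DetU (nn p (ωf p) o) p (fun n => imF (x n)) C c) :
    LPKc 𝕜 (nnK p o) p x (c / (8 * C)) := by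
  have key : ∀ (ν : ℕ → ℕ) (Q : ℕ → (M →₀ ℝ) → ℝ) (C c : ℝ), StrictMono ν → (∀ k, IsPF p (Q k)) →
      0 < C → 0 < c → (∀ v (F : Finset ℕ), ∑ k ∈ F, Q k v ≤ C * nn p (ωf p) o v) →
      (∀ k, c ≤ Q k (reF (x (ν k))) + Q k (imF (x (ν k)))) → LPKc 𝕜 (nnK p o) p x (c / (8 * C)) := by
    intro ν Q C c hν hQ hC hc hsum hlow
    have hQ1 : ∀ k (t : 𝕜) (v : M →₀ 𝕜), Q k (reF (t • v)) + Q k (imF (t • v)) ≤
        2 * ‖t‖ ^ p * (Q k (reF v) + Q k (imF v)) := by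
      intro k t v
      rw [reF_smul, imF_smul]
      have h1 := (hQ k).sub_le (RCLike.re t • reF v) (RCLike.im t • imF v)
      have h2 := (hQ k).add_le (RCLike.re t • imF v) (RCLike.im t • reF v)
      rw [(hQ k).smul, (hQ k).smul] at h1 h2
      have h3 := abs_re_rpow_le hp t
      have h4 := abs_im_rpow_le hp t
      have h5 := (hQ k).nonneg (reF v)
      have h6 := (hQ k).nonneg (imF v)
      nlinarith
    have h8 : c / (8 * C) = c / (4 * (2 * C)) := by ring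
    rw [h8]
    refine principleKc (𝕜 := 𝕜) hB (Q := fun k v => Q k (reF v) + Q k (imF v))
      (fun k v => add_nonneg ((hQ k).nonneg _) ((hQ k).nonneg _)) ?_ ?_ ?_ hQ1 ?_
      (C := 2 * C) (by positivity) ?_ hν hc hlow
    · intro k v w
      beta_reduce
      rw [reF_add, imF_add]
      have h1 := (hQ k).add_le (reF v) (reF w)
      have h2 := (hQ k).add_le (imF v) (imF w)
      linarith
    · intro k v
      beta_reduce
      have h1 : reF (-v) = -reF v := by ext a; simp [reF_apply]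
      have h2 : imF (-v) = -imF v := by ext a; simp [imF_apply]
      rw [h1, h2, (hQ k).neg, (hQ k).neg]
    · intro k
      have h1 : reF (0 : M →₀ 𝕜) = 0 := by ext a; simp [reF_apply]
      have h2 : imF (0 : M →₀ 𝕜) = 0 := by ext a; simp [imF_apply]
      beta_reduce
      rw [h1, h2, (hQ k).zero hp, add_zero]
    · intro k t v
      beta_reduce
      by_cases ht : t = 0
      · subst ht
        rw [norm_zero, Real.zero_rpow hp.ne', zero_mul]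
        exact mul_nonneg (by norm_num) (add_nonneg ((hQ k).nonneg _) ((hQ k).nonneg _))
      · have h1 := hQ1 k t⁻¹ (t • v)
        rw [smul_smul, inv_mul_cancel₀ ht, one_smul] at h1
        have h2 : ‖t‖ ^ p * ‖t⁻¹‖ ^ p = 1 := by
          rw [← Real.mul_rpow (norm_nonneg _) (norm_nonneg _), ← norm_mul, mul_inv_cancel₀ ht,
            norm_one, Real.one_rpow]
        have h3 := norm_rpow_nonneg (p := p) t
        calc ‖t‖ ^ p * (Q k (reF v) + Q k (imF v))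
            ≤ ‖t‖ ^ p * (2 * ‖t⁻¹‖ ^ p * (Q k (reF (t • v)) + Q k (imF (t • v)))) :=
              mul_le_mul_of_nonneg_left h1 h3
          _ = (‖t‖ ^ p * ‖t⁻¹‖ ^ p) * (2 * (Q k (reF (t • v)) + Q k (imF (t • v)))) := by ring
          _ = _ := by rw [h2, one_mul]
    · intro v F
      beta_reduce
      rw [Finset.sum_add_distrib]
      have h1 := hsum (reF v) F
      have h2 := hsum (imF v) F
      have h3 := mul_le_mul_of_nonneg_left (nn_reF_le hp hp1 o v) hC.le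
      have h4 := mul_le_mul_of_nonneg_left (nn_imF_le hp hp1 o v) hC.le
      linarith
  rcases h with ⟨ν, Q, hν, hQ, hsum, hlow⟩ | ⟨ν, Q, hν, hQ, hsum, hlow⟩
  · exact key ν Q C c hν hQ hC hc hsum (fun k => (hlow k).trans (le_add_of_nonneg_right ((hQ k).nonneg _)))
  · exact key ν Q C c hν hQ hC hc hsum (fun k => (hlow k).trans (le_add_of_nonneg_left ((hQ k).nonneg _)))

/-- **Main theorem** over `𝕜` -/
theorem main_Kc (hp : 0 < p) (hp1 : p < 1) (o : M) {x : ℕ → M →₀ 𝕜} {B : ℝ}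
    (hB : ∀ n, nnK p o (x n) ≤ B) {c0 : ℝ} (hc0 : 0 < c0) {K : ℕ}
    (hsep : ∀ n m, K ≤ n → n < m → c0 ≤ nnK p o (x n - x m)) :
    LPKc 𝕜 (nnK p o) p x (c0 / 140800) := by
  have hPF := isPF_f hp hp1.le o
  set c : ℝ := c0 / 1100 with hcdef
  have hc : 0 < c := by positivity
  by_contra hgoal
  have hno : ∀ C c' : ℝ, 0 < C → 0 < c' → c0 / 140800 ≤ c' / (8 * C) →
      ¬ DetU (nn p (ωf p) o) p (fun n => reF (x n)) C c' ∧
      ¬ DetU (nn p (ωf p) o) p (fun n => imF (x n)) C c' := by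
    intro C c' hC hc' hle
    rw [← not_or]
    intro h
    obtain ⟨φ, hφ, hlow⟩ := LPKc_of_det hp hp1.le o hB hC hc' h
    apply hgoal
    refine ⟨φ, hφ, fun F β => le_trans ?_ (hlow F β)⟩
    exact mul_le_mul_of_nonneg_right hle (Finset.sum_nonneg (fun _ _ => norm_rpow_nonneg _))
  have e1 := hno 3 (c / 5) (by norm_num) (by positivity) (by rw [hcdef]; linarith)
  have e2 := hno 10 c (by norm_num) (by positivity) (by rw [hcdef]; linarith)
  have e3 := hno 16 c (by norm_num) (by positivity) (by rw [hcdef]; linarith)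
  obtain ⟨E, B1, n1, h1⟩ := approxU hp hp1 o (x := fun n => reF (x n))
    (fun n => (nn_reF_le hp hp1.le o (x n)).trans (hB n)) hc e1.1 e2.1 e3.1
  obtain ⟨E', B2, n2, h2⟩ := approxU hp hp1 o (x := fun n => imF (x n))
    (fun n => (nn_imF_le hp hp1.le o (x n)).trans (hB n)) hc e1.2 e2.2 e3.2
  set n0 := max (max n1 n2) K with hn0
  have key1 : ∀ n, ∃ w : M →₀ ℝ, w.support ⊆ E ∧ mass p E w ≤ B1 ∧
      nn p (ωf p) o (reF (x (n0 + n)) - w) ≤ 264 * c := fun n => h1 (n0 + n) (by omega)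
  have key2 : ∀ n, ∃ w : M →₀ ℝ, w.support ⊆ E' ∧ mass p E' w ≤ B2 ∧
      nn p (ωf p) o (imF (x (n0 + n)) - w) ≤ 264 * c := fun n => h2 (n0 + n) (by omega)
  choose w hw1 hw2 hw3 using key1
  choose w' hw1' hw2' hw3' using key2
  obtain ⟨φ, hφ, hC1⟩ := pigeonC hp hp1.le o E hw1 hw2
  obtain ⟨ψ, hψ, hC2⟩ := pigeonC hp hp1.le o E' (w := fun n => w' (φ n)) (fun n => hw1' _) (fun n => hw2' _)
  obtain ⟨k1, hk1⟩ := hC1 c hc
  obtain ⟨k2, hk2⟩ := hC2 c hc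
  set k := max k1 k2 with hk
  have hkψ : k ≤ ψ k := hψ.id_le k
  have hlt : ψ k < ψ (k+1) := hψ (Nat.lt_succ_self k)
  set n := φ (ψ k) with hn
  set m := φ (ψ (k+1)) with hm
  have hnm : n < m := hφ hlt
  have e4 : nn p (ωf p) o (w n - w m) < c := hk1 _ _ (by omega) (by omega)
  have e5 : nn p (ωf p) o (w' n - w' m) < c := hk2 k (k+1) (by omega) (by omega)
  have h5 := hsep (n0 + n) (n0 + m) (by omega) (by omega)
  have h6 := nnK_le_re_im hp hp1.le o (x (n0 + n) - x (n0 + m))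
  rw [reF_sub, imF_sub] at h6
  have h7 : reF (x (n0 + n)) - reF (x (n0 + m)) =
      (reF (x (n0 + n)) - w n) - (reF (x (n0 + m)) - w m) + (w n - w m) := by abel
  have h8 : imF (x (n0 + n)) - imF (x (n0 + m)) =
      (imF (x (n0 + n)) - w' n) - (imF (x (n0 + m)) - w' m) + (w' n - w' m) := by abel
  rw [h7, h8] at h6
  have g1 := hPF.add_le ((reF (x (n0 + n)) - w n) - (reF (x (n0 + m)) - w m)) (w n - w m)
  have g2 := hPF.sub_le (reF (x (n0 + n)) - w n) (reF (x (n0 + m)) - w m)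
  have g3 := hPF.add_le ((imF (x (n0 + n)) - w' n) - (imF (x (n0 + m)) - w' m)) (w' n - w' m)
  have g4 := hPF.sub_le (imF (x (n0 + n)) - w' n) (imF (x (n0 + m)) - w' m)
  have g5 := hw3 n
  have g6 := hw3 m
  have g7 := hw3' n
  have g8 := hw3' m
  have : c0 = 1100 * c := by rw [hcdef]; ring
  linarith


variable {o : M} {F : Type} [AddCommGroup F] [Module 𝕜 F] {N : F → ℝ} {δ : M → F}

/-- transfer to the free space -/
theorem transferKc (hp : 0 < p) (hp1 : p < 1) (hF : IsFreePSpace 𝕜 p M o F N δ)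
    {y : ℕ → F} {B : ℝ} (hB : ∀ n, N (y n) ≤ B) {c0 : ℝ} (hc0p : 0 < c0)
    (hsep : ∀ n m, n < m → c0 ≤ N (y n - y m) ^ p) :
    LPKc 𝕜 (fun z => N z ^ p) p y (c0 / 563200) := by
  have hPF := isPFK_rpow hF.pbanach
  have h0 := hF.pbanach.nonneg
  set ι := Finsupp.linearCombination 𝕜 δ with hι
  have hιN : ∀ μ : M →₀ 𝕜, N (ι μ) ^ p = nnK p o μ := free_norm hp hp1.le hF
  have happ : ∀ n : ℕ, ∃ μ : M →₀ 𝕜, N (y n - ι μ) ^ p ≤ 1 / ((n:ℝ) + 1) :=
    fun n => exists_fin_approx hp hF (y n) (by positivity)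
  choose μ hμ using happ
  have hτ1 : ∀ n : ℕ, 1 / ((n:ℝ) + 1) ≤ 1 := by
    intro n
    rw [div_le_one (by positivity)]
    have : (0:ℝ) ≤ n := Nat.cast_nonneg n
    linarith
  have hb : ∀ n, nnK p o (μ n) ≤ B ^ p + 1 := by
    intro n
    rw [← hιN (μ n)]
    have h1 : ι (μ n) = y n - (y n - ι (μ n)) := by abel
    have h2 := hPF.sub_le (y n) (y n - ι (μ n))
    rw [← h1] at h2
    have h3 := Real.rpow_le_rpow (h0 _) (hB n) hp.le
    have h4 := hμ n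
    have h5 := hτ1 n
    linarith
  obtain ⟨K, hK⟩ := exists_nat_gt (4 / c0)
  have hKτ : ∀ n, K ≤ n → 1 / ((n:ℝ) + 1) ≤ c0 / 4 := by
    intro n hn
    have h1 : (K:ℝ) ≤ n := by exact_mod_cast hn
    rw [div_le_iff₀ (by positivity)]
    rw [div_lt_iff₀ hc0p] at hK
    nlinarith
  have hsep' : ∀ n m, K ≤ n → n < m → c0 / 2 ≤ nnK p o (μ n - μ m) := by
    intro n m hn hnm
    rw [← hιN, map_sub]
    have h1 : y n - y m = (ι (μ n) - ι (μ m)) + ((y n - ι (μ n)) - (y m - ι (μ m))) := by abel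
    have h2 := hPF.add_le (ι (μ n) - ι (μ m)) ((y n - ι (μ n)) - (y m - ι (μ m)))
    rw [← h1] at h2
    have h3 := hPF.sub_le (y n - ι (μ n)) (y m - ι (μ m))
    have h4 := hsep n m hnm
    have h5 := (hμ n).trans (hKτ n hn)
    have h6 := (hμ m).trans (hKτ m (by omega))
    linarith
  obtain ⟨φ, hφ, hlow⟩ := main_Kc hp hp1 o hb (by positivity : 0 < c0 / 2) hsep'
  set c : ℝ := c0 / 2 / 140800 with hcd
  have hc : 0 < c := by positivity
  obtain ⟨k0, hk0⟩ := exists_nat_gt (2 / c)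
  have hφk : ∀ k, 1 / ((φ (k0 + k) : ℝ) + 1) ≤ c / 2 := by
    intro k
    have h1 : k0 + k ≤ φ (k0 + k) := hφ.id_le _
    have h2 : (k0:ℝ) ≤ (φ (k0 + k) : ℝ) := by exact_mod_cast (Nat.le_add_right k0 k).trans h1
    rw [div_le_iff₀ (by positivity)]
    rw [div_lt_iff₀ hc] at hk0
    nlinarith
  refine ⟨fun k => φ (k0 + k), fun a b hab => hφ (by omega), fun G β => ?_⟩
  have h1 := hlow (G.image (fun k => k0 + k)) (fun k => β (k - k0))
  rw [Finset.sum_image (fun a _ b _ hab => Nat.add_left_cancel hab),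
    Finset.sum_image (fun a _ b _ hab => Nat.add_left_cancel hab)] at h1
  simp only [Nat.add_sub_cancel_left] at h1
  rw [← hιN] at h1
  have h2 : ι (∑ k ∈ G, β k • μ (φ (k0 + k))) = (∑ k ∈ G, β k • y (φ (k0 + k))) -
      ∑ k ∈ G, β k • (y (φ (k0 + k)) - ι (μ (φ (k0 + k)))) := by
    rw [map_sum, ← Finset.sum_sub_distrib]
    refine Finset.sum_congr rfl (fun k _ => ?_)
    rw [map_smul, smul_sub, sub_sub_cancel]
  have h3 := hPF.sub_le (∑ k ∈ G, β k • y (φ (k0 + k)))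
    (∑ k ∈ G, β k • (y (φ (k0 + k)) - ι (μ (φ (k0 + k)))))
  rw [← h2] at h3
  have h4 : N (∑ k ∈ G, β k • (y (φ (k0 + k)) - ι (μ (φ (k0 + k))))) ^ p ≤
      (c / 2) * ∑ k ∈ G, ‖β k‖ ^ p := by
    refine (hPF.sum_le hp _ _).trans ?_
    rw [Finset.mul_sum]
    refine Finset.sum_le_sum (fun k _ => ?_)
    have h5 := hPF.smul (β k) (y (φ (k0 + k)) - ι (μ (φ (k0 + k))))
    rw [h5, mul_comm]
    exact mul_le_mul_of_nonneg_right ((hμ _).trans (hφk k)) (norm_rpow_nonneg _)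
  have h5 : c0 / 563200 = c / 2 := by rw [hcd]; ring
  rw [h5]
  have h6 : (0:ℝ) ≤ ∑ k ∈ G, ‖β k‖ ^ p := Finset.sum_nonneg (fun _ _ => norm_rpow_nonneg _)
  simp only at h3 ⊢
  linarith

/-- **Strong Schur `p`-property** of Lipschitz free `p`-spaces, with an absolute constant. -/
theorem strongSchur (hp : 0 < p) (hp1 : p < 1) (hF : IsFreePSpace 𝕜 p M o F N δ)
    {y : ℕ → F} {B : ℝ} (hB : ∀ n, N (y n) ≤ B) {η : ℝ} (hη : 0 < η)
    (hsep : ∀ n m, n < m → η ≤ N (y n - y m)) :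
    ∃ φ : ℕ → ℕ, StrictMono φ ∧ ∀ (G : Finset ℕ) (a : ℕ → 𝕜),
      η ^ p / 10 ^ 6 * ∑ k ∈ G, ‖a k‖ ^ p ≤ N (∑ k ∈ G, a k • y (φ k)) ^ p := by
  have hηp : 0 < η ^ p := Real.rpow_pos_of_pos hη _
  obtain ⟨φ, hφ, hlow⟩ := transferKc hp hp1 hF hB hηp
    (fun n m hnm => Real.rpow_le_rpow hη.le (hsep n m hnm) hp.le)
  refine ⟨φ, hφ, fun G a => le_trans ?_ (hlow G a)⟩
  refine mul_le_mul_of_nonneg_right ?_ (Finset.sum_nonneg (fun _ _ => norm_rpow_nonneg _))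
  have : η ^ p / 563200 - η ^ p / 10 ^ 6 = η ^ p * (1 / 563200 - 1 / 10 ^ 6) := by ring
  have h2 : 0 ≤ η ^ p * (1 / 563200 - 1 / 10 ^ 6 : ℝ) := mul_nonneg hηp.le (by norm_num)
  linarith

/-- **Quantitative Kalton property**: the lower constant depends on the defect only. -/
theorem kaltonQ (hp : 0 < p) (hp1 : p < 1) (hF : IsFreePSpace 𝕜 p M o F N δ) {W : Set F}
    {B : ℝ} (hB : ∀ x ∈ W, N x ≤ B) {ε r : ℝ} (hε : 0 < ε) (hr : 0 ≤ r)
    (hW : ∀ E : Finset M, ∃ x ∈ W, ∀ y : F,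
      InClosedSpan 𝕜 N δ {s : M | ∃ u ∈ E, dist s u ≤ r} y → ε < N (x - y)) :
    ∃ x : ℕ → F, (∀ n, x n ∈ W) ∧ ∀ (G : Finset ℕ) (a : ℕ → 𝕜),
      ε ^ p / 10 ^ 6 * ∑ k ∈ G, ‖a k‖ ^ p ≤ N (∑ k ∈ G, a k • x k) ^ p := by
  have hPF := isPFK_rpow hF.pbanach
  have h0 := hF.pbanach.nonneg
  have hεp : 0 < ε ^ p := Real.rpow_pos_of_pos hε _
  have happ : ∀ z : F, ∃ μ : M →₀ 𝕜, N (z - Finsupp.linearCombination 𝕜 δ μ) ^ p ≤ ε ^ p / 4 :=
    fun z => exists_fin_approx hp hF z (by positivity)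
  choose μ hμ using happ
  obtain ⟨y, hy1, hy2⟩ := exists_seq_of_forall_finset_exists (fun z : F => z ∈ W)
    (fun a b => 3 / 4 * ε ^ p ≤ N (a - b) ^ p) (fun s _ => by
      obtain ⟨b, hb, hb2⟩ := hW (s.biUnion (fun a => (μ a).support))
      refine ⟨b, hb, fun a ha => ?_⟩
      have h1 := hb2 (Finsupp.linearCombination 𝕜 δ (μ a)) (fun η hη => by
        refine ⟨Finsupp.linearCombination 𝕜 δ (μ a), ?_, ?_⟩
        · rw [Finsupp.linearCombination_apply]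
          refine Submodule.sum_mem _ (fun u hu => Submodule.smul_mem _ _ (Submodule.subset_span ?_))
          exact ⟨u, ⟨u, Finset.mem_biUnion.mpr ⟨a, ha, hu⟩, by rw [dist_self]; exact hr⟩, rfl⟩
        · rw [sub_self, (hF.pbanach.eq_zero_iff 0).mpr rfl]
          exact hη)
      have h2 := Real.rpow_le_rpow hε.le h1.le hp.le
      have h3 : b - Finsupp.linearCombination 𝕜 δ (μ a) =
          (a - Finsupp.linearCombination 𝕜 δ (μ a)) - (a - b) := by abel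
      have h4 := hPF.sub_le (a - Finsupp.linearCombination 𝕜 δ (μ a)) (a - b)
      rw [← h3] at h4
      have h5 := hμ a
      linarith)
  obtain ⟨φ, _, hlow⟩ := transferKc hp hp1 hF (fun n => hB _ (hy1 n))
    (by positivity : 0 < 3 / 4 * ε ^ p) hy2
  refine ⟨fun n => y (φ n), fun n => hy1 _, fun G a => le_trans ?_ (hlow G a)⟩
  refine mul_le_mul_of_nonneg_right ?_ (Finset.sum_nonneg (fun _ _ => norm_rpow_nonneg _))
  have : 3 / 4 * ε ^ p / 563200 - ε ^ p / 10 ^ 6 = ε ^ p * (3 / 4 / 563200 - 1 / 10 ^ 6) := by ring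
  have h2 : 0 ≤ ε ^ p * (3 / 4 / 563200 - 1 / 10 ^ 6 : ℝ) := mul_nonneg hεp.le (by norm_num)
  linarith

end

end Pool.Agent.Y838.SP
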